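import Mathlib

/-! Combinatorial core: relation lattices of a signed transitive permutation module. -/

namespace Pool.Agent.Lib.MP81632f

open MulAction

/-- A finite set `R` with an involution `bar`, a transitive action of a finite group `G`
commuting with it, and an antisymmetric integral function `m`. -/
structure SignedSystem (G R : Type*) [Group G] [MulAction G R] (bar : R → R) (m : R → ℤ) :
    Prop where
  bar_bar : ∀ x, bar (bar x) = x
  bar_smul : ∀ (g : G) x, bar (g • x) = g • bar x
  trans : ∀ x y : R, ∃ g : G, g • x = y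
  m_bar : ∀ x, m (bar x) = - m x

/-- `u` is antisymmetric and orthogonal to all translates of `m`. -/
def IsRel (G : Type*) {R : Type*} [Group G] [MulAction G R] [Fintype R] (bar : R → R)
    (m u : R → ℤ) : Prop :=
  (∀ x, u (bar x) = - u x) ∧ ∀ g : G, ∑ x, u x * m (g • x) = 0

/-- `T` contains one of `x`, `bar x` for each `x`, and both only if they are equal. -/
def IsHalf {R : Type*} (bar : R → R) (T : Finset R) : Prop :=
  (∀ x, x ∈ T ∨ bar x ∈ T) ∧ ∀ x ∈ T, bar x ∈ T → bar x = x

set_option linter.unusedSectionVars false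

section

variable {G R : Type*} [Group G] [MulAction G R] [Fintype R] [DecidableEq R] {bar : R → R}
  {m u : R → ℤ}

theorem nofix (h : SignedSystem G R bar m) {z : R} (hz : m z ≠ 0) (x : R) : bar x ≠ x := by
  intro hx
  obtain ⟨g, hg⟩ := h.trans x z
  have h1 : bar z = z := by rw [← hg, h.bar_smul, hx]
  have h2 := h.m_bar z
  rw [h1] at h2
  apply hz
  omega

theorem exists_half (hbb : ∀ x, bar (bar x) = x) : ∃ T : Finset R, IsHalf bar T := by
  classical
  let e := Fintype.equivFin R
  refine ⟨Finset.univ.filter (fun x => e x ≤ e (bar x)), ?_, ?_⟩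
  · intro x
    simp only [Finset.mem_filter, Finset.mem_univ, true_and, hbb]
    exact le_total _ _
  · intro x hx hx'
    simp only [Finset.mem_filter, Finset.mem_univ, true_and, hbb] at hx hx'
    exact e.injective (le_antisymm hx' hx)

/-- sum of a symmetric function over a half system -/
theorem sum_half (hbb : ∀ x, bar (bar x) = x) (hnf : ∀ x, bar x ≠ x) {T : Finset R}
    (hT : IsHalf bar T) (f : R → ℤ) (hf : ∀ x, f (bar x) = f x) :
    ∑ x, f x = 2 * ∑ x ∈ T, f x := by
  have h1 : ∑ x, f x = ∑ x ∈ T, f x + ∑ x ∈ Finset.univ \ T, f x := by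
    rw [add_comm, Finset.sum_sdiff (Finset.subset_univ T)]
  have h2 : ∑ x ∈ Finset.univ \ T, f x = ∑ x ∈ T, f x := by
    refine Finset.sum_bij' (fun x _ => bar x) (fun x _ => bar x) ?_ ?_ ?_ ?_ ?_
    · intro x hx
      rw [Finset.mem_sdiff] at hx
      exact (hT.1 x).resolve_left hx.2
    · intro x hx
      rw [Finset.mem_sdiff]
      exact ⟨Finset.mem_univ _, fun h => hnf x (hT.2 x hx h)⟩
    · intro x _
      exact hbb x
    · intro x _
      exact hbb x
    · intro x _
      exact (hf x).symm
  rw [h1, h2]; ring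

theorem card_half (hbb : ∀ x, bar (bar x) = x) (hnf : ∀ x, bar x ≠ x) {T : Finset R}
    (hT : IsHalf bar T) : Fintype.card R = 2 * T.card := by
  have := sum_half hbb hnf hT (fun _ => 1) (fun _ => rfl)
  simp only [Finset.sum_const, Finset.card_univ, nsmul_eq_mul, mul_one] at this
  exact_mod_cast this

theorem rel_half (h : SignedSystem G R bar m) (hnf : ∀ x, bar x ≠ x) (hu : IsRel G bar m u)
    {T : Finset R} (hT : IsHalf bar T) (g : G) : ∑ x ∈ T, u x * m (g • x) = 0 := by
  have h1 := sum_half h.bar_bar hnf hT (fun x => u x * m (g • x)) (fun x => by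
    change u (bar x) * m (g • bar x) = u x * m (g • x)
    rw [hu.1, ← h.bar_smul, h.m_bar]; ring)
  rw [hu.2 g] at h1
  omega

/-- The relations form an additive subgroup. -/
def relGroup (G : Type*) {R : Type*} [Group G] [MulAction G R] [Fintype R] (bar : R → R)
    (m : R → ℤ) : AddSubgroup (R → ℤ) where
  carrier := {u | IsRel G bar m u}
  zero_mem' := ⟨fun x => by simp, fun g => by simp⟩
  add_mem' := by
    intro a b ha hb
    refine ⟨fun x => ?_, fun g => ?_⟩
    · simp only [Pi.add_apply, ha.1, hb.1]; ring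
    · simp only [Pi.add_apply, add_mul, Finset.sum_add_distrib]
      rw [ha.2 g, hb.2 g, add_zero]
  neg_mem' := by
    intro a ha
    refine ⟨fun x => ?_, fun g => ?_⟩
    · simp only [Pi.neg_apply, ha.1]
    · simp only [Pi.neg_apply, neg_mul, Finset.sum_neg_distrib]
      rw [ha.2 g, neg_zero]

theorem rel_smul (h : SignedSystem G R bar m) (hu : IsRel G bar m u) (g : G) :
    IsRel G bar m (fun x => u (g • x)) := by
  refine ⟨fun x => ?_, fun t => ?_⟩
  · simp only
    rw [← h.bar_smul, hu.1]
  · have h1 := hu.2 (t * g⁻¹)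
    rw [← h1]
    refine Fintype.sum_equiv (MulAction.toPerm g) _ _ (fun x => ?_)
    simp only [MulAction.toPerm_apply, mul_smul, inv_smul_smul]

/-- a nonzero relation can be divided until it is not divisible by `l` -/
theorem exists_primitive (hu : IsRel G bar m u) (hu0 : u ≠ 0) (l : ℕ) (hl : 1 < l) :
    ∃ v : R → ℤ, IsRel G bar m v ∧ ∃ x, ¬ (l : ℤ) ∣ v x := by
  classical
  -- strong induction on the sum of absolute values
  suffices H : ∀ n : ℕ, ∀ w : R → ℤ, IsRel G bar m w → w ≠ 0 → ∑ x, (w x).natAbs = n →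
      ∃ v : R → ℤ, IsRel G bar m v ∧ ∃ x, ¬ (l : ℤ) ∣ v x from H _ u hu hu0 rfl
  intro n
  induction n using Nat.strong_induction_on with
  | _ n ih =>
    intro w hw hw0 hn
    by_cases hd : ∀ x, (l : ℤ) ∣ w x
    · choose v hv using hd
      have hl0 : (l : ℤ) ≠ 0 := by exact_mod_cast (by omega : l ≠ 0)
      have hv0 : v ≠ 0 := by
        rintro rfl
        apply hw0
        funext x
        rw [hv x]; simp
      have hvr : IsRel G bar m v := by
        refine ⟨fun x => ?_, fun g => ?_⟩
        · have := hw.1 x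
          rw [hv, hv x] at this
          apply mul_left_cancel₀ hl0
          rw [this]; ring
        · have := hw.2 g
          have h2 : ∑ x, w x * m (g • x) = (l : ℤ) * ∑ x, v x * m (g • x) := by
            rw [Finset.mul_sum]
            exact Finset.sum_congr rfl (fun x _ => by rw [hv x]; ring)
          rw [h2] at this
          exact (mul_eq_zero.mp this).resolve_left hl0
      refine ih (∑ x, (v x).natAbs) ?_ v hvr hv0 rfl
      have h3 : ∑ x, (w x).natAbs = l * ∑ x, (v x).natAbs := by
        rw [Finset.mul_sum]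
        exact Finset.sum_congr rfl (fun x _ => by rw [hv x, Int.natAbs_mul, Int.natAbs_natCast])
      have h4 : 0 < ∑ x, (v x).natAbs := by
        obtain ⟨x, hx⟩ := Function.ne_iff.mp hv0
        refine Finset.sum_pos' (fun _ _ => Nat.zero_le _) ⟨x, Finset.mem_univ _, ?_⟩
        simpa [Int.natAbs_pos] using hx
      rw [← hn, h3]
      nlinarith
    · push Not at hd
      exact ⟨w, hw, hd⟩

/-! ### Case (b): one pair outside a prime -/

theorem core_b (h : SignedSystem G R bar m) (l : ℕ) (hl : l.Prime) {z : R}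
    (hz : ¬ (l : ℤ) ∣ m z) (hz' : ∀ y, ¬ (l : ℤ) ∣ m y → y = z ∨ y = bar z)
    (hu : IsRel G bar m u) : u = 0 := by
  classical
  by_contra hu0
  obtain ⟨v, hv, x, hx⟩ := exists_primitive hu hu0 l hl.one_lt
  have hmz : m z ≠ 0 := by rintro h0; exact hz (h0 ▸ dvd_zero _)
  have hnf := nofix h hmz
  obtain ⟨g, hg⟩ := h.trans x z
  obtain ⟨T, hT⟩ := exists_half h.bar_bar
  -- a representative of the pair of x in T
  obtain ⟨x', hx'T, hx'⟩ : ∃ x' ∈ T, x' = x ∨ x' = bar x := by
    rcases hT.1 x with h1 | h1
    · exact ⟨x, h1, Or.inl rfl⟩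
    · exact ⟨bar x, h1, Or.inr rfl⟩
  have hvx' : ¬ (l : ℤ) ∣ v x' := by
    rcases hx' with rfl | rfl
    · exact hx
    · rw [hv.1]; simpa using hx
  have hgx' : g • x' = z ∨ g • x' = bar z := by
    rcases hx' with rfl | rfl
    · exact Or.inl hg
    · right; rw [← h.bar_smul, hg]
  have hmx' : ¬ (l : ℤ) ∣ m (g • x') := by
    rcases hgx' with h1 | h1
    · rw [h1]; exact hz
    · rw [h1, h.m_bar]; simpa using hz
  have hsum := rel_half h hnf hv hT g
  rw [← Finset.add_sum_erase _ _ hx'T] at hsum
  have hrest : (l : ℤ) ∣ ∑ y ∈ T.erase x', v y * m (g • y) := by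
    refine Finset.dvd_sum (fun y hy => ?_)
    rw [Finset.mem_erase] at hy
    apply Dvd.dvd.mul_left
    by_contra hc
    have h1 := hz' _ hc
    -- then y is in the pair of x'
    have h2 : y = x' ∨ y = bar x' := by
      have e1 : g • y = g • x' ∨ g • y = g • bar x' := by
        rcases hgx' with h3 | h3
        · rw [← h.bar_smul, h3]; exact h1
        · rw [← h.bar_smul, h3, h.bar_bar]; exact h1.symm
      rcases e1 with e | e
      · exact Or.inl (MulAction.injective g e)
      · exact Or.inr (MulAction.injective g e)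
    rcases h2 with h2 | h2
    · exact hy.1 h2
    · have := hT.2 x' hx'T (h2 ▸ hy.2)
      exact hnf x' this
  have hlast : (l : ℤ) ∣ v x' * m (g • x') := by
    have h5 : v x' * m (g • x') = - ∑ y ∈ T.erase x', v y * m (g • y) := by linarith
    rw [h5]; exact (dvd_neg).mpr hrest
  rcases (Nat.prime_iff_prime_int.mp hl).dvd_or_dvd hlast with h6 | h6
  · exact hvx' h6
  · exact hmx' h6

/-! ### Case (c): one even pair, even number of pairs -/

theorem core_c (h : SignedSystem G R bar m) {z : R} (hcard : 4 ∣ Fintype.card R)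
    (hz : Even (m z)) (hz' : ∀ y, Even (m y) → y = z ∨ y = bar z)
    (hu : IsRel G bar m u) : u = 0 := by
  classical
  by_contra hu0
  obtain ⟨v, hv, x0, hx0⟩ := exists_primitive hu hu0 2 (by norm_num)
  -- there is an odd element
  have hne : ∃ y, m y ≠ 0 := by
    by_contra hall
    push Not at hall
    have h1 : ∀ y, y = z ∨ y = bar z := fun y => hz' y (by rw [hall y]; exact Even.zero)
    have h2 : Fintype.card R ≤ 2 := by
      have : (Finset.univ : Finset R) ⊆ {z, bar z} := by
        intro y _
        simpa using h1 y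
      calc Fintype.card R = (Finset.univ : Finset R).card := rfl
        _ ≤ ({z, bar z} : Finset R).card := Finset.card_le_card this
        _ ≤ 2 := Finset.card_le_two
    have h3 : 0 < Fintype.card R := Fintype.card_pos_iff.mpr ⟨z⟩
    omega
  obtain ⟨y0, hy0⟩ := hne
  have hnf := nofix h hy0
  obtain ⟨T, hT⟩ := exists_half h.bar_bar
  have hcT : Even T.card := by
    have := card_half h.bar_bar hnf hT
    rw [Nat.even_iff]; omega
  -- all values on T are congruent to the sum over T
  have key : ∀ x ∈ T, (2 : ℤ) ∣ (∑ y ∈ T, v y) - v x := by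
    intro x hxT
    obtain ⟨g, hg⟩ := h.trans x z
    have hsum := rel_half h hnf hv hT g
    have h1 : ∑ y ∈ T, v y - v x = ∑ y ∈ T.erase x, v y := by
      rw [← Finset.add_sum_erase _ _ hxT]; ring
    rw [h1]
    have h2 : (2 : ℤ) ∣ ∑ y ∈ T.erase x, v y - ∑ y ∈ T.erase x, v y * m (g • y) := by
      rw [← Finset.sum_sub_distrib]
      refine Finset.dvd_sum (fun y hy => ?_)
      rw [Finset.mem_erase] at hy
      have hodd : ¬ Even (m (g • y)) := by
        intro hc
        have h3 := hz' _ hc
        have h2 : y = x ∨ y = bar x := by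
          rcases h3 with e | e
          · left; exact MulAction.injective g (e.trans hg.symm)
          · right
            apply MulAction.injective g
            simp only
            rw [e, ← hg, h.bar_smul]
        rcases h2 with h2 | h2
        · exact hy.1 h2
        · exact hnf x (hT.2 x hxT (h2 ▸ hy.2))
      rw [Int.not_even_iff_odd] at hodd
      obtain ⟨k, hk⟩ := hodd
      rw [hk]
      exact ⟨- (v y * k), by ring⟩
    have h4 : (2 : ℤ) ∣ ∑ y ∈ T.erase x, v y * m (g • y) := by
      rw [← Finset.add_sum_erase _ _ hxT, hg] at hsum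
      have h5 : ∑ y ∈ T.erase x, v y * m (g • y) = - (v x * m z) := by linarith
      rw [h5]
      exact (dvd_neg).mpr (Dvd.dvd.mul_left hz.two_dvd _)
    have := dvd_add h2 h4
    simpa using this
  -- hence the values on T are all odd, contradiction with the even number
  have hodd : ∀ x ∈ T, ¬ (2 : ℤ) ∣ v x := by
    obtain ⟨x1, hx1T, hx1⟩ : ∃ x1 ∈ T, ¬ (2 : ℤ) ∣ v x1 := by
      rcases hT.1 x0 with h1 | h1
      · exact ⟨x0, h1, hx0⟩
      · refine ⟨bar x0, h1, ?_⟩
        rw [hv.1]; simpa using hx0
    intro x hxT hc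
    have h1 := key x hxT
    have h2 := key x1 hx1T
    apply hx1
    omega
  have hsum0 : (2 : ℤ) ∣ ∑ y ∈ T, v y := by
    have h1 : (2 : ℤ) ∣ ∑ y ∈ T, v y - ∑ y ∈ T, (1 : ℤ) := by
      rw [← Finset.sum_sub_distrib]
      refine Finset.dvd_sum (fun y hy => ?_)
      have := hodd y hy
      omega
    have h2 : (2 : ℤ) ∣ ∑ y ∈ T, (1 : ℤ) := by
      simp only [Finset.sum_const, nsmul_eq_mul, mul_one]
      obtain ⟨k, hk⟩ := hcT
      exact ⟨k, by rw [hk]; push_cast; ring⟩
    have := dvd_add h1 h2
    simpa using this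
  obtain ⟨x1, hx1T⟩ : ∃ x1, x1 ∈ T := by
    rcases hT.1 x0 with h1 | h1
    · exact ⟨_, h1⟩
    · exact ⟨_, h1⟩
  have h1 := key x1 hx1T
  exact hodd x1 hx1T (by omega)

end

end Pool.Agent.Lib.MP81632f
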