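import Pool.Agent.Lib.MP_81632f_ag.Core

/-! Case (a): prime power degree. -/

namespace Pool.Agent.Lib.MP81632f

open MulAction

set_option linter.unusedSectionVars false

section

variable {G R : Type*} [Group G] [Finite G] [MulAction G R] [Fintype R] [DecidableEq R]
  {bar : R → R} {m u : R → ℤ}

theorem orbit_dvd (l : ℕ) [hl : Fact l.Prime] (P : Sylow l G) (htr : ∀ x y : R, ∃ g : G, g • x = y)
    (x : R) (v : ℕ) (hv : l ^ v ∣ Fintype.card R) :
    l ^ v ∣ Nat.card (orbit (P : Subgroup G) x) := by
  classical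
  set H : Subgroup G := stabilizer G x with hH
  have h1 : H.index = Fintype.card R := by
    rw [hH, MulAction.index_stabilizer]
    have : orbit G x = Set.univ := by
      ext y
      simp only [Set.mem_univ, iff_true]
      obtain ⟨g, hg⟩ := htr x y
      exact ⟨g, hg⟩
    rw [this, Set.ncard_univ, Nat.card_eq_fintype_card]
  have h2 : Nat.card (orbit (P : Subgroup G) x) = H.relIndex (P : Subgroup G) := by
    have e1 : (stabilizer (P : Subgroup G) x).index = (orbit (P : Subgroup G) x).ncard :=
      MulAction.index_stabilizer _ _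
    rw [← Nat.card_coe_set_eq] at e1
    rw [← e1]
    rw [Subgroup.relIndex]
    congr 1
  have h3 : (H ⊓ (P : Subgroup G)).relIndex (P : Subgroup G) * (P : Subgroup G).index
      = (H ⊓ (P : Subgroup G)).index := Subgroup.relIndex_mul_index inf_le_right
  have h4 : (H ⊓ (P : Subgroup G)).relIndex H * H.index
      = (H ⊓ (P : Subgroup G)).index := Subgroup.relIndex_mul_index inf_le_left
  rw [Subgroup.inf_relIndex_right] at h3
  have h5 : l ^ v ∣ H.relIndex (P : Subgroup G) * (P : Subgroup G).index := by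
    rw [h3, ← h4, h1]
    exact Dvd.dvd.mul_left hv _
  have h6 : Nat.Coprime (l ^ v) (P : Subgroup G).index := by
    apply Nat.Coprime.pow_left
    rw [hl.out.coprime_iff_not_dvd]
    exact P.not_dvd_index
  rw [h2]
  exact h6.dvd_of_dvd_mul_right h5

/-- A nonzero relation lattice has an element whose reduction is nonzero and fixed by a
Sylow subgroup. -/
theorem exists_fixed (h : SignedSystem G R bar m) (l : ℕ) [hl : Fact l.Prime] (P : Sylow l G)
    (hu : IsRel G bar m u) (hu0 : u ≠ 0) :
    ∃ w : R → ℤ, IsRel G bar m w ∧ (∃ x, ¬ (l : ℤ) ∣ w x) ∧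
      ∀ g ∈ (P : Subgroup G), ∀ x, ((w (g • x) : ℤ) : ZMod l) = (w x : ZMod l) := by
  classical
  set c : (R → ℤ) →+ (R → ZMod l) := (Int.castAddHom (ZMod l)).compLeft R with hc
  have hcapp : ∀ (f : R → ℤ) x, c f x = ((f x : ℤ) : ZMod l) := fun f x => rfl
  set U : AddSubgroup (R → ZMod l) := (relGroup G bar m).map c with hU
  have hact : ∀ (g : (P : Subgroup G)) (f : U), (fun x => f.1 ((g⁻¹ : (P : Subgroup G)) • x)) ∈ U := by
    rintro g ⟨f, hf⟩
    obtain ⟨w, hw, rfl⟩ := hf
    refine ⟨fun x => w ((g⁻¹ : (P : Subgroup G)) • x), ?_, ?_⟩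
    · exact rel_smul h hw ((g⁻¹ : (P : Subgroup G)) : G)
    · rfl
  let act : MulAction (P : Subgroup G) U :=
    { smul := fun g f => ⟨fun x => f.1 ((g⁻¹ : (P : Subgroup G)) • x), hact g f⟩
      one_smul := by
        intro f
        apply Subtype.ext
        funext x
        change f.1 (((1 : (P : Subgroup G))⁻¹ : (P : Subgroup G)) • x) = f.1 x
        rw [inv_one, one_smul]
      mul_smul := by
        intro a b f
        apply Subtype.ext
        funext x
        change f.1 (((a * b : (P : Subgroup G))⁻¹ : (P : Subgroup G)) • x)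
          = f.1 ((b⁻¹ : (P : Subgroup G)) • ((a⁻¹ : (P : Subgroup G)) • x))
        rw [mul_inv_rev, mul_smul] }
  have hsm : ∀ (g : (P : Subgroup G)) (f : U) x, (g • f).1 x = f.1 ((g⁻¹ : (P : Subgroup G)) • x) :=
    fun g f x => rfl
  -- U is nonzero
  obtain ⟨v, hv, x0, hx0⟩ := exists_primitive hu hu0 l hl.out.one_lt
  have hvU : c v ∈ U := ⟨v, hv, rfl⟩
  have hv0 : (⟨c v, hvU⟩ : U) ≠ 0 := by
    intro h0
    have h1 : c v x0 = 0 := by
      have := congrArg Subtype.val h0
      simpa using congrFun this x0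
    rw [hcapp, ZMod.intCast_zmod_eq_zero_iff_dvd] at h1
    exact hx0 h1
  have hord : addOrderOf (⟨c v, hvU⟩ : U) = l := by
    refine addOrderOf_eq_prime ?_ hv0
    apply Subtype.ext
    funext x
    simp
  have hdvd : l ∣ Nat.card U := by
    have e1 := addOrderOf_dvd_natCard (⟨c v, hvU⟩ : U)
    rwa [hord] at e1
  have h0 : (0 : U) ∈ fixedPoints (P : Subgroup G) U := by
    intro g
    apply Subtype.ext
    funext x
    rw [hsm]
    rfl
  obtain ⟨b, hb, hb0⟩ := P.isPGroup'.exists_fixed_point_of_prime_dvd_card_of_fixed_point U hdvd h0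
  obtain ⟨w, hw, hwb⟩ := b.2
  refine ⟨w, hw, ?_, ?_⟩
  · by_contra hall
    push Not at hall
    apply hb0
    symm
    apply Subtype.ext
    rw [← hwb]
    funext x
    rw [hcapp]
    simpa [ZMod.intCast_zmod_eq_zero_iff_dvd] using hall x
  · intro g hg x
    have h1 := hb ((⟨g, hg⟩ : (P : Subgroup G))⁻¹)
    have h2 := congrArg (fun f : U => f.1 x) h1
    simp only [hsm, inv_inv] at h2
    rw [← hwb] at h2
    exact h2

theorem core_a (h : SignedSystem G R bar m) (l : ℕ) [hl : Fact l.Prime] (k : ℕ)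
    (hcard : Fintype.card R = 2 * l ^ k)
    (hm : ∀ T : Finset R, IsHalf bar T → ¬ (l : ℤ) ∣ ∑ x ∈ T, m x)
    (hu : IsRel G bar m u) : u = 0 := by
  classical
  by_contra hu0
  -- no fixed points of bar
  have hm0 : ∃ z, m z ≠ 0 := by
    by_contra hall
    push Not at hall
    obtain ⟨T, hT⟩ := exists_half h.bar_bar
    apply hm T hT
    rw [Finset.sum_congr rfl (fun x _ => hall x)]
    simp
  obtain ⟨z, hz⟩ := hm0
  have hnf := nofix h hz
  obtain ⟨P⟩ : Nonempty (Sylow l G) := inferInstance
  obtain ⟨w, hw, ⟨x0, hx0⟩, hfix⟩ := exists_fixed h l P hu hu0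
  set a : ZMod l := ((w x0 : ℤ) : ZMod l) with ha
  have ha0 : a ≠ 0 := by
    rw [ha, Ne, ZMod.intCast_zmod_eq_zero_iff_dvd]; exact hx0
  -- it suffices to find a half system on which w is constant modulo l
  suffices H : ∃ T : Finset R, IsHalf bar T ∧ ∀ x ∈ T, ((w x : ℤ) : ZMod l) = a by
    obtain ⟨T, hT, hTa⟩ := H
    have h1 := rel_half h hnf hw hT 1
    simp only [one_smul] at h1
    have h2 : ((∑ x ∈ T, w x * m x : ℤ) : ZMod l) = a * ((∑ x ∈ T, m x : ℤ) : ZMod l) := by
      push_cast
      rw [Finset.mul_sum]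
      exact Finset.sum_congr rfl (fun x hx => by rw [hTa x hx])
    rw [h1] at h2
    simp only [Int.cast_zero] at h2
    have h3 := (mul_eq_zero.mp h2.symm).resolve_left ha0
    rw [ZMod.intCast_zmod_eq_zero_iff_dvd] at h3
    exact hm T hT h3
  set O : Finset R := Finset.univ.filter (fun y => y ∈ orbit (P : Subgroup G) x0) with hO
  have hOcard : Nat.card (orbit (P : Subgroup G) x0) = O.card := by
    rw [Nat.card_coe_set_eq, hO, Set.ncard_eq_toFinset_card']
    congr 1
    ext y
    simp
  have hOa : ∀ x ∈ O, ((w x : ℤ) : ZMod l) = a := by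
    intro x hx
    rw [hO, Finset.mem_filter] at hx
    obtain ⟨g, hg⟩ := hx.2
    rw [← hg]
    exact hfix g.1 g.2 x0
  have hOpos : x0 ∈ O := by
    rw [hO, Finset.mem_filter]
    exact ⟨Finset.mem_univ _, mem_orbit_self _⟩
  rcases eq_or_ne l 2 with hl2 | hl2
  · -- the orbit is everything
    have hd : l ^ (k + 1) ∣ Fintype.card R := by
      rw [hcard, pow_succ, mul_comm]
      rw [hl2]
    have h1 := orbit_dvd l P h.trans x0 (k + 1) hd
    rw [hOcard] at h1
    have h2 : Fintype.card R ≤ O.card := by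
      have h3 : l ^ (k + 1) = Fintype.card R := by
        rw [hcard, pow_succ, mul_comm, hl2]
      rw [← h3]
      exact Nat.le_of_dvd (Finset.card_pos.mpr ⟨x0, hOpos⟩) h1
    have h3 : O = Finset.univ := Finset.eq_univ_of_card _ (le_antisymm (Finset.card_le_univ _) h2)
    obtain ⟨T, hT⟩ := exists_half h.bar_bar
    exact ⟨T, hT, fun x _ => hOa x (h3 ▸ Finset.mem_univ x)⟩
  · -- the orbit and its conjugate
    have hd : l ^ k ∣ Fintype.card R := by
      rw [hcard]; exact Dvd.intro_left 2 rfl
    have h1 := orbit_dvd l P h.trans x0 k hd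
    rw [hOcard] at h1
    have h2 : l ^ k ≤ O.card := Nat.le_of_dvd (Finset.card_pos.mpr ⟨x0, hOpos⟩) h1
    set O' : Finset R := O.image bar with hO'
    have hinj : Function.Injective bar := by
      intro x y hxy
      rw [← h.bar_bar x, hxy, h.bar_bar]
    have hO'card : O'.card = O.card := Finset.card_image_of_injective _ hinj
    have hO'a : ∀ x ∈ O', ((w x : ℤ) : ZMod l) = - a := by
      intro x hx
      rw [hO', Finset.mem_image] at hx
      obtain ⟨y, hy, rfl⟩ := hx
      rw [hw.1]
      push_cast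
      rw [hOa y hy]
    have hne : a ≠ - a := by
      intro hc
      have h3 : (2 : ZMod l) * a = 0 := by
        have : a + a = 0 := by nth_rewrite 1 [hc]; ring
        rw [two_mul]; exact this
      rcases mul_eq_zero.mp h3 with h4 | h4
      · have h5 : ((2 : ℕ) : ZMod l) = 0 := by exact_mod_cast h4
        rw [ZMod.natCast_eq_zero_iff] at h5
        exact hl2 ((Nat.prime_dvd_prime_iff_eq hl.out Nat.prime_two).mp h5)
      · exact ha0 h4
    have hdisj : Disjoint O O' := by
      rw [Finset.disjoint_left]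
      intro x hx hx'
      exact hne ((hOa x hx).symm.trans (hO'a x hx'))
    have hunion : O ∪ O' = Finset.univ := by
      apply Finset.eq_univ_of_card
      apply le_antisymm (Finset.card_le_univ _)
      rw [Finset.card_union_of_disjoint hdisj, hO'card, hcard]
      omega
    refine ⟨O, ⟨fun x => ?_, fun x hx hbx => ?_⟩, hOa⟩
    · have hx : x ∈ O ∪ O' := hunion ▸ Finset.mem_univ x
      rcases Finset.mem_union.mp hx with h3 | h3
      · exact Or.inl h3
      · right
        rw [hO', Finset.mem_image] at h3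
        obtain ⟨y, hy, rfl⟩ := h3
        rw [h.bar_bar]; exact hy
    · exfalso
      exact Finset.disjoint_left.mp hdisj hbx (Finset.mem_image_of_mem _ hx)

end

end Pool.Agent.Lib.MP81632f
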