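import Pool.Agent.Lib.MP_81632f_ag.Core

/-! Case (d): action which is doubly transitive on the pairs. -/

namespace Pool.Agent.Lib.MP81632f

open MulAction

set_option linter.unusedSectionVars false

section

variable {G R : Type*} [Group G] [Fintype G] [MulAction G R] [Fintype R] [DecidableEq R]
  {bar : R → R} {m u : R → ℤ}

/-- The invariant kernel of a relation. -/
def ker (G : Type*) {R : Type*} [Group G] [Fintype G] [MulAction G R] (u : R → ℤ) (x y : R) : ℤ :=
  ∑ g : G, u (g • x) * u (g • y)

theorem ker_smul (u : R → ℤ) (g : G) (x y : R) : ker G u (g • x) (g • y) = ker G u x y := by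
  unfold ker
  refine Fintype.sum_equiv (Equiv.mulRight g) _ _ (fun t => ?_)
  simp only [Equiv.coe_mulRight, mul_smul]

theorem ker_comm (u : R → ℤ) (x y : R) : ker G u x y = ker G u y x :=
  Finset.sum_congr rfl (fun _ _ => mul_comm _ _)

theorem ker_bar (h : SignedSystem G R bar m) (hu : IsRel G bar m u) (x y : R) :
    ker G u x (bar y) = - ker G u x y := by
  unfold ker
  rw [← Finset.sum_neg_distrib]
  refine Finset.sum_congr rfl (fun g _ => ?_)
  rw [← h.bar_smul, hu.1]; ring

theorem ker_bar_left (h : SignedSystem G R bar m) (hu : IsRel G bar m u) (x y : R) :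
    ker G u (bar x) y = - ker G u x y := by
  rw [ker_comm, ker_bar h hu, ker_comm]

theorem ker_rel (h : SignedSystem G R bar m) (hu : IsRel G bar m u) (x : R) :
    ∑ y, ker G u x y * m y = 0 := by
  unfold ker
  have h1 : ∀ y, (∑ g : G, u (g • x) * u (g • y)) * m y
      = ∑ g : G, u (g • x) * (u (g • y) * m y) := by
    intro y
    rw [Finset.sum_mul]
    exact Finset.sum_congr rfl (fun g _ => by ring)
  rw [Finset.sum_congr rfl (fun y _ => h1 y), Finset.sum_comm]
  refine Finset.sum_eq_zero (fun g _ => ?_)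
  rw [← Finset.mul_sum]
  have h2 : ∑ y, u (g • y) * m y = ∑ y, u y * m (g⁻¹ • y) := by
    refine Fintype.sum_equiv (MulAction.toPerm g) _ _ (fun y => ?_)
    simp only [MulAction.toPerm_apply, inv_smul_smul]
  rw [h2, hu.2, mul_zero]

/-- Double transitivity on the pairs `{x, bar x}`. -/
def PairTwoTransitive (G : Type*) {R : Type*} [Group G] [MulAction G R] (bar : R → R) : Prop :=
  ∀ x y x' y' : R, y ≠ x → y ≠ bar x → y' ≠ x' → y' ≠ bar x' →
    ∃ g : G, (g • x = x' ∨ g • x = bar x') ∧ (g • y = y' ∨ g • y = bar y')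

theorem core_d (h : SignedSystem G R bar m) (h2 : PairTwoTransitive G bar)
    (hodd : (Finset.univ.filter (fun x => Odd (m x))).card % 4 = 2)
    {z : R} (hz : Even (m z)) (hu : IsRel G bar m u) : u = 0 := by
  classical
  by_contra hu0
  obtain ⟨x1, hx1⟩ : ∃ x, u x ≠ 0 := by
    by_contra hall
    push Not at hall
    exact hu0 (funext hall)
  -- an odd point
  obtain ⟨w, hw⟩ : ∃ w, Odd (m w) := by
    by_contra hall
    push Not at hall
    have : (Finset.univ.filter (fun x => Odd (m x))) = ∅ := by
      ext y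
      simp only [Finset.mem_filter, Finset.mem_univ, true_and, Finset.notMem_empty, iff_false]
      exact hall y
    rw [this] at hodd
    simp at hodd
  have hmw : m w ≠ 0 := by
    rintro h0
    rw [h0] at hw
    exact absurd hw (by decide)
  have hnf := nofix h hmw
  obtain ⟨T, hT⟩ := exists_half h.bar_bar
  set K := ker G u with hK
  -- diagonal value
  set δ : ℤ := K x1 x1 with hδ
  have hdiag : ∀ x, K x x = δ := by
    intro x
    obtain ⟨g, hg⟩ := h.trans x1 x
    rw [← hg, hK, ker_smul]
  have hδpos : 0 < δ := by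
    rw [hδ, hK]
    unfold ker
    refine Finset.sum_pos' (fun g _ => mul_self_nonneg _) ⟨1, Finset.mem_univ _, ?_⟩
    rw [one_smul]
    exact mul_self_pos.mpr hx1
  -- relation over the half system
  have hrelT : ∀ x, ∑ y ∈ T, K x y * m y = 0 := by
    intro x
    have e1 := sum_half h.bar_bar hnf hT (fun y => K x y * m y) (fun y => by
      change K x (bar y) * m (bar y) = K x y * m y
      rw [hK, ker_bar h hu, h.m_bar]; ring)
    rw [ker_rel h hu x] at e1
    omega
  -- representatives of the odd and even points in T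
  have hrep : ∀ x, ∃ x' ∈ T, (x' = x ∨ x' = bar x) := by
    intro x
    rcases hT.1 x with h1 | h1
    · exact ⟨x, h1, Or.inl rfl⟩
    · exact ⟨bar x, h1, Or.inr rfl⟩
  obtain ⟨w', hw'T, hw'⟩ := hrep w
  obtain ⟨z', hz'T, hz'⟩ := hrep z
  have hmw' : Odd (m w') := by
    rcases hw' with rfl | rfl
    · exact hw
    · rw [h.m_bar]; exact hw.neg
  have hmz' : Even (m z') := by
    rcases hz' with rfl | rfl
    · exact hz
    · rw [h.m_bar]; exact hz.neg
  have hwz : w' ≠ z' := by
    rintro rfl
    exact (Int.not_even_iff_odd.mpr hmw') hmz'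
  -- off diagonal absolute value
  set α : ℤ := |K z' w'| with hα
  have hoff : ∀ x ∈ T, ∀ y ∈ T, y ≠ x → K x y = α ∨ K x y = - α := by
    intro x hx y hy hxy
    have hy2 : y ≠ bar x := fun e => hnf x (hT.2 x hx (e ▸ hy))
    have hw2 : w' ≠ bar z' := fun e => hnf z' (hT.2 z' hz'T (e ▸ hw'T))
    obtain ⟨g, hg1, hg2⟩ := h2 x y z' w' hxy hy2 hwz hw2
    have e1 : K x y = K (g • x) (g • y) := by rw [hK, ker_smul]
    have e2 : K x y = K z' w' ∨ K x y = - K z' w' := by
      rcases hg1 with a | a <;> rcases hg2 with b | b <;> rw [e1, a, b]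
      · exact Or.inl rfl
      · right; rw [hK, ker_bar h hu]
      · right; rw [hK, ker_bar_left h hu]
      · left; rw [hK, ker_bar_left h hu, ker_bar h hu, neg_neg]
    rcases abs_choice (K z' w') with c | c
    · rw [hα, c]; exact e2
    · rw [hα, c, neg_neg]; exact e2.symm
  -- number of odd points in T is odd
  have hToddcard : ((T.filter (fun x => Odd (m x))).card : ℤ) % 2 = 1 := by
    have e1 := sum_half h.bar_bar hnf hT (fun x => if Odd (m x) then (1 : ℤ) else 0) (fun x => by
      change (if Odd (m (bar x)) then (1 : ℤ) else 0) = _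
      rw [h.m_bar]
      have : Odd (- m x) ↔ Odd (m x) := ⟨fun e => by simpa using e.neg, fun e => e.neg⟩
      simp only [this])
    rw [Finset.sum_boole, Finset.sum_boole] at e1
    omega
  -- for every x in T: α * s_x = - δ * m x, with s_x congruent to the number of odd y ≠ x
  have hs : ∀ x ∈ T, ∃ s : ℤ, α * s = - (δ * m x) ∧
      (2 : ℤ) ∣ s - ∑ y ∈ T.erase x, m y := by
    intro x hx
    have e1 : ∀ y ∈ T.erase x, ∃ ε : ℤ, (ε = 1 ∨ ε = -1) ∧ K x y = α * ε := by
      intro y hy
      rw [Finset.mem_erase] at hy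
      rcases hoff x hx y hy.2 hy.1 with c | c
      · exact ⟨1, Or.inl rfl, by rw [c, mul_one]⟩
      · exact ⟨-1, Or.inr rfl, by rw [c]; ring⟩
    choose! ε hε1 hε2 using e1
    refine ⟨∑ y ∈ T.erase x, ε y * m y, ?_, ?_⟩
    · have e2 := hrelT x
      rw [← Finset.add_sum_erase _ _ hx, hdiag] at e2
      rw [Finset.mul_sum]
      have e3 : ∑ y ∈ T.erase x, α * (ε y * m y) = ∑ y ∈ T.erase x, K x y * m y :=
        Finset.sum_congr rfl (fun y hy => by rw [hε2 y hy]; ring)
      rw [e3]; linarith
    · rw [← Finset.sum_sub_distrib]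
      refine Finset.dvd_sum (fun y hy => ?_)
      rcases hε1 y hy with c | c
      · rw [c]; exact ⟨0, by ring⟩
      · rw [c]; exact ⟨- m y, by ring⟩
  -- parity of the sum of m
  have hpar : (2 : ℤ) ∣ ∑ y ∈ T, m y - (T.filter (fun x => Odd (m x))).card := by
    have e1 : ((T.filter (fun x => Odd (m x))).card : ℤ) = ∑ y ∈ T, if Odd (m y) then (1 : ℤ) else 0 := by
      rw [Finset.sum_boole]
    rw [e1, ← Finset.sum_sub_distrib]
    refine Finset.dvd_sum (fun y _ => ?_)
    split_ifs with c
    · obtain ⟨k, hk⟩ := c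
      exact ⟨k, by rw [hk]; ring⟩
    · rw [Int.not_odd_iff_even] at c
      rw [sub_zero]; exact c.two_dvd
  obtain ⟨sw, hsw1, -⟩ := hs w' hw'T
  obtain ⟨sz, hsz1, hsz2⟩ := hs z' hz'T
  have hszodd : ¬ (2 : ℤ) ∣ sz := by
    intro hc
    have e2 : ∑ y ∈ T, m y = m z' + ∑ y ∈ T.erase z', m y := by
      rw [Finset.add_sum_erase _ _ hz'T]
    obtain ⟨k, hk⟩ := hmz'
    omega
  have hα0 : α ≠ 0 := by
    intro h0
    rw [h0, zero_mul] at hsw1
    have : δ * m w' = 0 := by linarith
    rcases mul_eq_zero.mp this with c | c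
    · omega
    · rw [c] at hmw'
      exact absurd hmw' (by decide)
  have hmz0 : m z' ≠ 0 := by
    intro h0
    rw [h0, mul_zero, neg_zero] at hsz1
    rcases mul_eq_zero.mp hsz1 with c | c
    · exact hα0 c
    · exact hszodd (c ▸ dvd_zero _)
  -- two-adic valuations
  have hδ0 : δ ≠ 0 := hδpos.ne'
  have hp : Fact (Nat.Prime 2) := ⟨Nat.prime_two⟩
  have v1 : padicValInt 2 α ≤ padicValInt 2 δ := by
    have hsw0 : sw ≠ 0 := by
      rintro rfl
      rw [mul_zero] at hsw1
      have : δ * m w' = 0 := by linarith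
      rcases mul_eq_zero.mp this with c | c
      · exact hδ0 c
      · rw [c] at hmw'
        exact absurd hmw' (by decide)
    have hmw0 : m w' ≠ 0 := by
      rintro c
      rw [c] at hmw'
      exact absurd hmw' (by decide)
    have e1 : padicValInt 2 (α * sw) = padicValInt 2 (δ * m w') := by
      rw [hsw1]
      simp [padicValInt]
    rw [padicValInt.mul hα0 hsw0, padicValInt.mul hδ0 hmw0] at e1
    have e2 : padicValInt 2 (m w') = 0 := by
      apply padicValInt.eq_zero_of_not_dvd
      intro hc
      exact (Int.not_even_iff_odd.mpr hmw') (even_iff_two_dvd.mpr (by exact_mod_cast hc))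
    omega
  have v2 : padicValInt 2 δ + 1 ≤ padicValInt 2 α := by
    have hsz0 : sz ≠ 0 := by
      rintro rfl
      exact hszodd (dvd_zero _)
    have e1 : padicValInt 2 (α * sz) = padicValInt 2 (δ * m z') := by
      rw [hsz1]
      simp [padicValInt]
    rw [padicValInt.mul hα0 hsz0, padicValInt.mul hδ0 hmz0] at e1
    have e2 : padicValInt 2 sz = 0 := by
      apply padicValInt.eq_zero_of_not_dvd
      intro hc
      exact hszodd (by exact_mod_cast hc)
    have e3 : 1 ≤ padicValInt 2 (m z') := by
      have e4 : 1 ≤ padicValNat 2 (m z').natAbs :=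
        one_le_padicValNat_of_dvd (Int.natAbs_ne_zero.mpr hmz0)
          (by rw [← Int.natCast_dvd_natCast]; simpa using hmz'.two_dvd)
      exact e4
    omega
  omega

end

end Pool.Agent.Lib.MP81632f
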