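import Mathlib

/-! Exterior algebra: eigenvectors whose eigenvalues have only trivial multiplicative
relations are polynomials in degree two eigenvectors. -/

namespace Pool.Agent.Lib.MP81632f

open ExteriorAlgebra Module Module.End
open scoped Pointwise

section perm

variable {K W : Type*} [CommRing K] [AddCommGroup W] [Module K W]

theorem prod_perm {J : Type*} (e : J → W) {l l' : List J} (h : l.Perm l') :
    (l.map (fun j => ι K (e j))).prod = (l'.map (fun j => ι K (e j))).prod ∨
      (l.map (fun j => ι K (e j))).prod = - (l'.map (fun j => ι K (e j))).prod := by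
  induction h with
  | nil => left; rfl
  | cons x _ ih =>
    simp only [List.map_cons, List.prod_cons]
    rcases ih with h | h
    · left; rw [h]
    · right; rw [h, mul_neg]
  | swap x y l =>
    right
    simp only [List.map_cons, List.prod_cons]
    rw [← mul_assoc, ← mul_assoc, ← neg_mul]
    congr 1
    exact eq_neg_of_add_eq_zero_left (ι_add_mul_swap _ _)
  | trans _ _ ih1 ih2 =>
    rcases ih1 with h1 | h1 <;> rcases ih2 with h2 | h2
    · left; rw [h1, h2]
    · right; rw [h1, h2]
    · right; rw [h1, h2]
    · left; rw [h1, h2, neg_neg]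

end perm

section field

variable {K W : Type*} [Field K] [AddCommGroup W] [Module K W]

theorem prod_mem [DecidableEq K] {J : Type*} (A : Subalgebra K (ExteriorAlgebra K W)) (e : J → W)
    (lam : J → K) (Q : K) (hQ : Q ≠ 0) (hgen : ∀ j j', lam j * lam j' = Q → ι K (e j) * ι K (e j') ∈ A)
    (hne : ∀ j, lam j ≠ 0) (hself : ∀ j, lam j * lam j ≠ Q) :
    ∀ (n : ℕ) (l : List J), l.length = n →
      (∀ c : K, c ≠ 0 → l.countP (fun j => decide (lam j = c)) = l.countP (fun j => decide (lam j = Q / c))) →
      (l.map (fun j => ι K (e j))).prod ∈ A := by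
  classical
  intro n
  induction n using Nat.strong_induction_on with
  | _ n ih =>
    intro l hl hbal
    match l with
    | [] => simp
    | j :: l₁ =>
      -- a partner of j
      have h1 : 0 < (j :: l₁).countP (fun i => decide (lam i = Q / lam j)) := by
        rw [← hbal (lam j) (hne j)]
        rw [List.countP_pos_iff]
        exact ⟨j, List.mem_cons_self, by simp⟩
      rw [List.countP_pos_iff] at h1
      obtain ⟨j', hj', hjj⟩ := h1
      have hjj' : lam j' = Q / lam j := by simpa using hjj
      have hmul : lam j * lam j' = Q := by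
        rw [hjj']; field_simp [hne j]
      have hj'l : j' ∈ l₁ := by
        rcases List.mem_cons.mp hj' with h2 | h2
        · exfalso
          rw [h2] at hmul
          exact hself j hmul
        · exact h2
      set l₂ := l₁.erase j' with hl₂
      have hperm : l₁.Perm (j' :: l₂) := List.perm_cons_erase hj'l
      have hlen : l₂.length + 2 = n := by
        have := hperm.length_eq
        simp only [List.length_cons] at this hl
        omega
      have hbal2 : ∀ c : K, c ≠ 0 → l₂.countP (fun j => decide (lam j = c))
          = l₂.countP (fun j => decide (lam j = Q / c)) := by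
        intro c hc
        have e1 := hbal c hc
        rw [List.countP_cons, List.countP_cons, hperm.countP_eq, hperm.countP_eq,
          List.countP_cons, List.countP_cons] at e1
        have e2 : (lam j = c) ↔ (lam j' = Q / c) := by
          rw [hjj']
          constructor
          · rintro rfl; rfl
          · intro h
            rw [div_eq_div_iff (hne j) hc] at h
            exact (mul_left_cancel₀ hQ h).symm
        have e3 : (lam j' = c) ↔ (lam j = Q / c) := by
          rw [hjj']
          constructor
          · rintro rfl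
            rw [div_div_cancel₀ hQ]
          · intro h
            rw [h, div_div_cancel₀ hQ]
        simp only [e2, e3] at e1
        omega
      have hmem2 := ih l₂.length (by omega) l₂ rfl hbal2
      have hfirst := hgen j j' hmul
      rw [List.map_cons, List.prod_cons]
      rcases prod_perm (K := K) e hperm with h2 | h2
      · rw [h2, List.map_cons, List.prod_cons, ← mul_assoc]
        exact A.mul_mem hfirst hmem2
      · rw [h2, List.map_cons, List.prod_cons, mul_neg, ← mul_assoc]
        exact A.neg_mem (A.mul_mem hfirst hmem2)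

/-- projecting to an eigenspace inside a span of eigenvectors -/
theorem mem_span_eigen {M : Type*} [AddCommGroup M] [Module K M] (T : End K M) (S : Set M)
    (hS : ∀ s ∈ S, ∃ ν : K, T s = ν • s) (μ : K) {ω : M} (hω : ω ∈ Submodule.span K S)
    (hT : ω ∈ T.maxGenEigenspace μ) : ω ∈ Submodule.span K {s ∈ S | T s = μ • s} := by
  set A := {s ∈ S | T s = μ • s} with hA
  set B := {s ∈ S | ¬ T s = μ • s} with hB
  have hSAB : S = A ∪ B := by
    ext s
    constructor
    · intro hs
      by_cases h : T s = μ • s
      · exact Or.inl ⟨hs, h⟩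
      · exact Or.inr ⟨hs, h⟩
    · rintro (h | h)
      · exact h.1
      · exact h.1
  rw [hSAB, Submodule.span_union, Submodule.mem_sup] at hω
  obtain ⟨x, hx, y, hy, rfl⟩ := hω
  have hxe : x ∈ T.maxGenEigenspace μ := by
    have : Submodule.span K A ≤ T.maxGenEigenspace μ := by
      rw [Submodule.span_le]
      intro s hs
      have h1 : s ∈ T.eigenspace μ := mem_eigenspace_iff.mpr hs.2
      exact (T.genEigenspace μ).mono le_top h1
    exact this hx
  have hye : y ∈ T.maxGenEigenspace μ := by
    have := Submodule.sub_mem _ hT hxe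
    simpa using this
  have hyB : y ∈ ⨆ ν ∈ ({μ}ᶜ : Set K), T.maxGenEigenspace ν := by
    have : Submodule.span K B ≤ ⨆ ν ∈ ({μ}ᶜ : Set K), T.maxGenEigenspace ν := by
      rw [Submodule.span_le]
      intro s hs
      obtain ⟨ν, hν⟩ := hS s hs.1
      have hne : ν ∈ ({μ}ᶜ : Set K) := by
        rintro (rfl : ν = μ)
        exact hs.2 hν
      have h1 : s ∈ T.eigenspace ν := mem_eigenspace_iff.mpr hν
      have h2 : s ∈ T.maxGenEigenspace ν := (T.genEigenspace ν).mono le_top h1
      exact (le_iSup₂_of_le (f := fun ν (_ : ν ∈ ({μ}ᶜ : Set K)) => T.maxGenEigenspace ν)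
        ν hne le_rfl) h2
    exact this hy
  have hind := T.independent_maxGenEigenspace
  have hdis := hind.disjoint_biSup (x := μ) (y := ({μ}ᶜ : Set K)) (by simp)
  have hy0 : y = 0 := Submodule.disjoint_def.mp hdis y hye hyB
  rw [hy0, add_zero]
  exact hx

theorem ext_core [DecidableEq K] {J : Type*} (F : W →ₗ[K] W) (e : J → W) (lam : J → K)
    (hspan : Submodule.span K (Set.range e) = ⊤) (heig : ∀ j, F (e j) = lam j • e j)
    (Q : K) (hQ : Q ≠ 0) (hne : ∀ j, lam j ≠ 0) (hself : ∀ j, lam j * lam j ≠ Q)
    (N : ℕ) (i : ℕ)
    (hneat : ∀ l : List J, l.length = 2 * i → (l.map (fun j => lam j ^ N)).prod = Q ^ (N * i) →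
      ∀ c : K, c ≠ 0 → l.countP (fun j => decide (lam j = c)) = l.countP (fun j => decide (lam j = Q / c)))
    (ω : ExteriorAlgebra K W) (hω : ω ∈ ⋀[K]^(2 * i) W)
    (hg : ω ∈ maxGenEigenspace (ExteriorAlgebra.map (F ^ N)).toLinearMap (Q ^ (N * i))) :
    ExteriorAlgebra.map (F ^ N) ω = Q ^ (N * i) • ω ∧
    ω ∈ Algebra.adjoin K {η : ExteriorAlgebra K W | η ∈ ⋀[K]^2 W ∧
      ExteriorAlgebra.map (F ^ N) η = Q ^ N • η} := by
  classical
  set T : End K (ExteriorAlgebra K W) := (ExteriorAlgebra.map (F ^ N)).toLinearMap with hT
  set S : Set (ExteriorAlgebra K W) := Set.range (fun j => ι K (e j)) with hS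
  have hFN : ∀ j, (F ^ N) (e j) = lam j ^ N • e j := by
    intro j
    induction N with
    | zero => simp
    | succ n ihn =>
      have ih2 : (F ^ n) (e j) = lam j ^ n • e j := by
        clear hT hg hneat ihn T
        induction n with
        | zero => simp
        | succ m ihm => rw [pow_succ', Module.End.mul_apply, ihm, map_smul, heig, smul_smul, pow_succ]
      rw [pow_succ', Module.End.mul_apply, ih2, map_smul, heig, smul_smul, pow_succ]
  have hTι : ∀ j, ExteriorAlgebra.map (F ^ N) (ι K (e j)) = lam j ^ N • ι K (e j) := by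
    intro j
    rw [ExteriorAlgebra.map_apply_ι, hFN, map_smul]
  have hrange : LinearMap.range (ι K : W →ₗ[K] ExteriorAlgebra K W) = Submodule.span K S := by
    rw [hS, Set.range_comp' (ι K : W →ₗ[K] ExteriorAlgebra K W) e, ← Submodule.map_span, hspan,
      LinearMap.range_eq_map]
  have hω' : ω ∈ Submodule.span K (S ^ (2 * i)) := by
    rw [← Submodule.span_pow, ← hrange]
    exact hω
  -- elements of the powers of S are products of lists
  have hlist : ∀ s ∈ S ^ (2 * i), ∃ l : List J, l.length = 2 * i ∧
      s = (l.map (fun j => ι K (e j))).prod := by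
    intro s hs
    rw [Set.mem_pow] at hs
    obtain ⟨f, rfl⟩ := hs
    choose g hg' using fun t => (f t).2
    refine ⟨List.ofFn g, List.length_ofFn, ?_⟩
    rw [List.map_ofFn]
    congr 2
    funext t
    exact (hg' t).symm
  have hTprod : ∀ l : List J, T (l.map (fun j => ι K (e j))).prod
      = (l.map (fun j => lam j ^ N)).prod • (l.map (fun j => ι K (e j))).prod := by
    intro l
    rw [hT]
    change ExteriorAlgebra.map (F ^ N) _ = _
    induction l with
    | nil => simp
    | cons j l ih =>
      simp only [List.map_cons, List.prod_cons, map_mul, ih, hTι]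
      rw [smul_mul_smul_comm]
  have hS' : ∀ s ∈ S ^ (2 * i), ∃ ν : K, T s = ν • s := by
    intro s hs
    obtain ⟨l, -, rfl⟩ := hlist s hs
    exact ⟨_, hTprod l⟩
  have hmem := mem_span_eigen T (S ^ (2 * i)) hS' _ hω' hg
  constructor
  · have : Submodule.span K {s ∈ S ^ (2 * i) | T s = Q ^ (N * i) • s} ≤ T.eigenspace (Q ^ (N * i)) := by
      rw [Submodule.span_le]
      intro s hs
      exact mem_eigenspace_iff.mpr hs.2
    exact mem_eigenspace_iff.mp (this hmem)
  · set A := Algebra.adjoin K {η : ExteriorAlgebra K W | η ∈ ⋀[K]^2 W ∧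
      ExteriorAlgebra.map (F ^ N) η = Q ^ N • η} with hAdef
    have : Submodule.span K {s ∈ S ^ (2 * i) | T s = Q ^ (N * i) • s} ≤ Subalgebra.toSubmodule A := by
      rw [Submodule.span_le]
      rintro s ⟨hs, hs2⟩
      obtain ⟨l, hl, rfl⟩ := hlist s hs
      by_cases h0 : (l.map (fun j => ι K (e j))).prod = 0
      · rw [h0]; exact Submodule.zero_mem _
      have hprod : (l.map (fun j => lam j ^ N)).prod = Q ^ (N * i) := by
        rw [hTprod] at hs2
        have h3 : ((l.map (fun j => lam j ^ N)).prod - Q ^ (N * i)) •
            (l.map (fun j => ι K (e j))).prod = 0 := by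
          rw [sub_smul, hs2, sub_self]
        exact sub_eq_zero.mp ((smul_eq_zero.mp h3).resolve_right h0)
      refine prod_mem A e lam Q hQ ?_ hne hself _ l rfl (hneat l hl hprod)
      intro j j' hjj'
      apply Algebra.subset_adjoin
      refine ⟨?_, ?_⟩
      · change _ ∈ (LinearMap.range (ι K : W →ₗ[K] ExteriorAlgebra K W)) ^ 2
        rw [pow_two]
        exact Submodule.mul_mem_mul (LinearMap.mem_range_self _ _) (LinearMap.mem_range_self _ _)
      · rw [map_mul, hTι, hTι, smul_mul_smul_comm, ← mul_pow, hjj']
    exact this hmem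

end field

end Pool.Agent.Lib.MP81632f
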