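import Pool.Agent.Lib.MP_81632f_ag.Roots
import Pool.Agent.Lib.MP_81632f_ag.Ext

/-! From vanishing of the relation lattice to Tate classes. -/

namespace Pool.Agent.Lib.MP81632f

open Polynomial Module Module.End

/-- `T` consists of roots of `P`, contains `z` or `q / z` for every root `z`, and contains
both only if they are equal. -/
def IsHalfSystem {K : Type*} [Field K] [Algebra ℚ K] (q : K) (P : ℚ[X]) (T : Finset K) : Prop :=
  (∀ z ∈ T, aeval z P = 0) ∧ (∀ z : K, aeval z P = 0 → z ∈ T ∨ q / z ∈ T) ∧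
    ∀ z ∈ T, q / z ∈ T → q / z = z

section

variable {p : ℕ} [hp : Fact p.Prime] {a : ℕ} {P : ℚ[X]}

theorem emb_surj (hW : IsWeil p a P) {K : Type*} [Field K] [CharZero K] [IsAlgClosed K] {z : K}
    (hz : aeval z P = 0) : ∃ x : Rts P, emb P K x = z := by
  have h1 : z ∈ P.rootSet K := mem_rootSet.mpr ⟨hW.irr.ne_zero, hz⟩
  have hs : ((P.map (algebraMap ℚ P.SplittingField)).Splits) := SplittingField.splits P
  rw [← hs.image_rootSet (emb P K)] at h1
  obtain ⟨x, hx, hxz⟩ := h1
  exact ⟨⟨x, hx⟩, hxz⟩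

theorem emb_inj {K : Type*} [Field K] [CharZero K] [IsAlgClosed K] {x y : Rts P}
    (h : emb P K x = emb P K y) : x = y :=
  Subtype.ext ((emb P K).toRingHom.injective h)

theorem emb_bar (hW : IsWeil p a P) {K : Type*} [Field K] [CharZero K] [IsAlgClosed K]
    (x : Rts P) : emb P K (barR hW x) = (p : K) ^ a / emb P K x := by
  rw [barR_coe, map_div₀, map_pow, map_natCast]

theorem card_rts (hW : IsWeil p a P) : Fintype.card (Rts P) = P.natDegree := by
  have hs : ((P.map (algebraMap ℚ P.SplittingField)).Splits) := SplittingField.splits P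
  exact card_rootSet_eq_natDegree hW.irr.separable hs

/-- transfer of half systems -/
theorem half_transfer (hW : IsWeil p a P) (T : Finset (Rts P)) (hT : IsHalf (barR hW) T)
    (m : PadicAlgCl p → ℤ) :
    ∃ T' : Finset (PadicAlgCl p), IsHalfSystem ((p : PadicAlgCl p) ^ a) P T' ∧
      ∑ z ∈ T', m z = ∑ x ∈ T, mR P m x := by
  classical
  refine ⟨T.image (fun x : Rts P => emb P (PadicAlgCl p) x), ⟨?_, ?_, ?_⟩, ?_⟩
  · intro z hz
    obtain ⟨x, -, rfl⟩ := Finset.mem_image.mp hz
    exact emb_root x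
  · intro z hz
    obtain ⟨x, rfl⟩ := emb_surj hW hz
    rcases hT.1 x with h | h
    · exact Or.inl (Finset.mem_image_of_mem _ h)
    · right
      rw [← emb_bar hW]
      exact Finset.mem_image_of_mem _ h
  · intro z hz hz'
    obtain ⟨x, hx, rfl⟩ := Finset.mem_image.mp hz
    rw [← emb_bar hW] at hz' ⊢
    obtain ⟨y, hy, hyx⟩ := Finset.mem_image.mp hz'
    have : y = barR hW x := emb_inj hyx
    rw [this] at hy
    rw [hT.2 x hx hy]
  · rw [Finset.sum_image (fun x _ y _ h => emb_inj h)]
    rfl

/-- triviality of multiplicative relations in the splitting field -/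
theorem neat_split (hW : IsWeil p a P) (ha : 0 < a) {D : ℕ} {m : PadicAlgCl p → ℤ}
    (hm : IsSlope p a P D m)
    (hcore : ∀ u : Rts P → ℤ, IsRel P.Gal (barR hW) (mR P m) u → u = 0)
    (c : Rts P → ℤ) {N : ℕ} (hN : 0 < N) {M : ℤ}
    (h : (∏ x : Rts P, (x : P.SplittingField) ^ c x) ^ N = (p : P.SplittingField) ^ M)
    (x : Rts P) : c x = c (barR hW x) := by
  have h1 := hcore _ (isRel_of_mul hW ha hm c hN h)
  have h2 := congrFun h1 x
  simp only [Pi.zero_apply] at h2
  linarith

/-- (1) in the complex numbers -/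
theorem neat_complex (hW : IsWeil p a P) (ha : 0 < a) {D : ℕ} {m : PadicAlgCl p → ℤ}
    (hm : IsSlope p a P D m)
    (hcore : ∀ u : Rts P → ℤ, IsRel P.Gal (barR hW) (mR P m) u → u = 0)
    (c : ℂ → ℤ) {N : ℕ} (hN : 0 < N) {M : ℤ}
    (h : (∏ z : P.rootSet ℂ, (z : ℂ) ^ c z) ^ N = (p : ℂ) ^ M)
    (z : ℂ) (hz : aeval z P = 0) : c z = c ((p : ℂ) ^ a / z) := by
  obtain ⟨x, rfl⟩ := emb_surj hW hz
  have h1 : (∏ x : Rts P, (x : P.SplittingField) ^ c (emb P ℂ x)) ^ N
      = (p : P.SplittingField) ^ M := by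
    apply (emb P ℂ).toRingHom.injective
    change emb P ℂ _ = emb P ℂ _
    rw [map_pow, map_prod, map_zpow₀, map_natCast, ← h]
    congr 1
    refine Fintype.prod_bijective (fun x : Rts P => (⟨emb P ℂ x,
      mem_rootSet.mpr ⟨hW.irr.ne_zero, emb_root x⟩⟩ : P.rootSet ℂ)) ⟨?_, ?_⟩ _ _ ?_
    · intro x y hxy
      exact emb_inj (congrArg Subtype.val hxy)
    · rintro ⟨w, hw⟩
      obtain ⟨y, rfl⟩ := emb_surj hW (mem_rootSet.mp hw).2
      exact ⟨y, rfl⟩
    · intro y
      rw [map_zpow₀]
  have h2 := neat_split hW ha hm hcore (fun x => c (emb P ℂ x)) hN h1 x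
  rw [← emb_bar hW]
  exact h2

theorem prod_list_rts {K : Type*} [Field K] [CharZero K] [IsAlgClosed K] [DecidableEq K]
    {J : Type*} (lam : J → K) (hlam : ∀ j, ∃ x : Rts P, emb P K x = lam j) (l : List J) :
    ∏ x : Rts P, (emb P K x) ^ (l.countP (fun j => decide (lam j = emb P K x)))
      = (l.map lam).prod := by
  classical
  induction l with
  | nil => simp
  | cons j l ih =>
    simp only [List.countP_cons, pow_add, Finset.prod_mul_distrib, ih, List.map_cons,
      List.prod_cons]
    rw [mul_comm]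
    congr 1
    obtain ⟨x0, hx0⟩ := hlam j
    rw [Finset.prod_eq_single x0]
    · simp [hx0]
    · intro y _ hy
      have : ¬ lam j = emb P K y := by
        intro h
        apply hy
        exact emb_inj (h.symm.trans hx0.symm)
      simp [this]
    · intro h; exact absurd (Finset.mem_univ _) h

/-- (2): Tate classes are polynomials in degree two Tate classes. -/
theorem tate (hW : IsWeil p a P) (ha : 0 < a) {D : ℕ} {m : PadicAlgCl p → ℤ}
    (hm : IsSlope p a P D m)
    (hcore : ∀ u : Rts P → ℤ, IsRel P.Gal (barR hW) (mR P m) u → u = 0)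
    (hnf : ∀ x : Rts P, barR hW x ≠ x)
    {K W : Type*} [Field K] [CharZero K] [IsAlgClosed K] [AddCommGroup W] [Module K W]
    [FiniteDimensional K W] (F : W →ₗ[K] W) (hF : aeval F (P.map (algebraMap ℚ K)) = 0)
    (N : ℕ) (hN : 0 < N) (i : ℕ) (ω : ExteriorAlgebra K W) (hω : ω ∈ ⋀[K]^(2 * i) W)
    (hg : ω ∈ maxGenEigenspace (ExteriorAlgebra.map (F ^ N)).toLinearMap
      (((p : K) ^ a) ^ (N * i))) :
    ExteriorAlgebra.map (F ^ N) ω = ((p : K) ^ a) ^ (N * i) • ω ∧
    ω ∈ Algebra.adjoin K {η : ExteriorAlgebra K W | η ∈ ⋀[K]^2 W ∧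
      ExteriorAlgebra.map (F ^ N) η = ((p : K) ^ a) ^ N • η} := by
  classical
  set Q : K := (p : K) ^ a with hQ
  have hQ0 : Q ≠ 0 := q_ne_zero K
  -- F is diagonalisable
  have hsq : Squarefree (P.map (algebraMap ℚ K)) :=
    (hW.irr.separable.map (f := algebraMap ℚ K)).squarefree
  have hss : IsSemisimple F := isSemisimple_of_squarefree_aeval_eq_zero hsq hF
  have htop := hss.iSup_eigenspace_eq_top
  set J := {w : W // ∃ μ : K, F w = μ • w ∧ w ≠ 0} with hJ
  let lam : J → K := fun j => j.2.choose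
  have hlam : ∀ j : J, F j.1 = lam j • j.1 ∧ j.1 ≠ 0 := fun j => j.2.choose_spec
  have hspan : Submodule.span K (Set.range (fun j : J => j.1)) = ⊤ := by
    rw [eq_top_iff, ← htop]
    refine iSup_le (fun μ => ?_)
    intro w hw
    by_cases h0 : w = 0
    · rw [h0]; exact Submodule.zero_mem _
    · apply Submodule.subset_span
      exact ⟨⟨w, μ, mem_eigenspace_iff.mp hw, h0⟩, rfl⟩
  have hroot : ∀ j : J, aeval (lam j) P = 0 := by
    intro j
    have h1 : Module.End.HasEigenvector F (lam j) j.1 :=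
      ⟨mem_eigenspace_iff.mpr (hlam j).1, (hlam j).2⟩
    have h2 := aeval_apply_of_hasEigenvector (p := P.map (algebraMap ℚ K)) h1
    rw [hF, LinearMap.zero_apply] at h2
    have h3 := (smul_eq_zero.mp h2.symm).resolve_right (hlam j).2
    rwa [eval_map, ← aeval_def] at h3
  have hemb : ∀ j, ∃ x : Rts P, emb P K x = lam j := fun j => emb_surj hW (hroot j)
  refine ext_core F (fun j : J => j.1) lam hspan (fun j => (hlam j).1) Q hQ0
    (fun j => root_ne_zero hW (hroot j)) ?_ N i ?_ ω hω hg
  · intro j hj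
    obtain ⟨x, hx⟩ := hemb j
    apply hnf x
    apply emb_inj (K := K)
    rw [emb_bar hW, hx, div_eq_iff (root_ne_zero hW (hroot j)), hj]
  · intro l _ hprod c hc
    -- the counting function
    have h1 : (∏ x : Rts P, (x : P.SplittingField) ^
        ((l.countP (fun j => decide (lam j = emb P K x)) : ℕ) : ℤ)) ^ N
        = (p : P.SplittingField) ^ (((a * (N * i) : ℕ) : ℤ)) := by
      apply (emb P K).toRingHom.injective
      change emb P K _ = emb P K _
      simp only [zpow_natCast]
      rw [map_pow, map_prod, map_pow, map_natCast]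
      simp only [map_pow]
      rw [prod_list_rts lam hemb l]
      have h2 : ∀ l : List J, (l.map lam).prod ^ N = (l.map (fun j => lam j ^ N)).prod := by
        intro l
        induction l with
        | nil => simp
        | cons j l ih => simp only [List.map_cons, List.prod_cons, mul_pow, ih]
      rw [h2, hprod, hQ, ← pow_mul]
    by_cases hcr : aeval c P = 0
    · obtain ⟨x, hx⟩ := emb_surj hW hcr
      have h2 := neat_split hW ha hm hcore _ hN h1 x
      rw [emb_bar hW, hx, ← hQ] at h2
      exact Nat.cast_injective (R := ℤ) h2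
    · have hcr' : ¬ aeval (Q / c) P = 0 := by
        intro h3
        apply hcr
        have h4 := bar_root hW h3
        rwa [← hQ, div_div_cancel₀ hQ0] at h4
      have e1 : l.countP (fun j => decide (lam j = c)) = 0 := by
        rw [List.countP_eq_zero]
        intro j _
        simp only [decide_eq_true_eq]
        rintro rfl
        exact hcr (hroot j)
      have e2 : l.countP (fun j => decide (lam j = Q / c)) = 0 := by
        rw [List.countP_eq_zero]
        intro j _
        simp only [decide_eq_true_eq]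
        intro h5
        exact hcr' (h5 ▸ hroot j)
      rw [e1, e2]

end

end Pool.Agent.Lib.MP81632f
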