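import Pool.Agent.Lib.MP_81632f_ag.Final

/-! Commutative algebras: classes of even weight as polynomials in classes of degree one and two. -/

namespace Pool.Agent.Lib.MP81632f

open Polynomial Module Module.End
open scoped Pointwise

section field

variable {K R : Type*} [Field K] [CommRing R] [Algebra K R]

theorem prod_mem_comm [DecidableEq K] {J : Type*} (A : Subalgebra K R) (e : J → R)
    (lam : J → K) (Q : K) (hQ : Q ≠ 0)
    (hne : ∀ j, lam j ≠ 0) :
    ∀ (n : ℕ) (l : List J), l.length = n →
      (∀ j ∈ l, ∀ j' ∈ l, lam j * lam j' = Q → e j * e j' ∈ A) → (∀ j ∈ l, lam j * lam j ≠ Q) →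
      (∀ c : K, c ≠ 0 → l.countP (fun j => decide (lam j = c)) = l.countP (fun j => decide (lam j = Q / c))) →
      (l.map e).prod ∈ A := by
  classical
  intro n
  induction n using Nat.strong_induction_on with
  | _ n ih =>
    intro l hl hgen hself hbal
    match l with
    | [] => simp
    | j :: l₁ =>
      have h1 : 0 < (j :: l₁).countP (fun i => decide (lam i = Q / lam j)) := by
        rw [← hbal (lam j) (hne j)]
        rw [List.countP_pos_iff]
        exact ⟨j, List.mem_cons_self, by simp⟩
      rw [List.countP_pos_iff] at h1
      obtain ⟨j', hj', hjj⟩ := h1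
      have hjj' : lam j' = Q / lam j := by simpa using hjj
      have hmul : lam j * lam j' = Q := by
        rw [hjj']; field_simp [hne j]
      have hj'l : j' ∈ l₁ := by
        rcases List.mem_cons.mp hj' with h2 | h2
        · exfalso
          rw [h2] at hmul
          exact hself j List.mem_cons_self hmul
        · exact h2
      set l₂ := l₁.erase j' with hl₂
      have hperm : l₁.Perm (j' :: l₂) := List.perm_cons_erase hj'l
      have hlen : l₂.length + 2 = n := by
        have := hperm.length_eq
        simp only [List.length_cons] at this hl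
        omega
      have hsub : ∀ i ∈ l₂, i ∈ j :: l₁ := by
        intro i hi
        exact List.mem_cons_of_mem _ (List.mem_of_mem_erase hi)
      have hbal2 : ∀ c : K, c ≠ 0 → l₂.countP (fun j => decide (lam j = c))
          = l₂.countP (fun j => decide (lam j = Q / c)) := by
        intro c hc
        have e1 := hbal c hc
        rw [List.countP_cons, List.countP_cons, hperm.countP_eq, hperm.countP_eq,
          List.countP_cons, List.countP_cons] at e1
        have e2 : (lam j = c) ↔ (lam j' = Q / c) := by
          rw [hjj']
          constructor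
          · rintro rfl; rfl
          · intro h
            rw [div_eq_div_iff (hne j) hc] at h
            exact (mul_left_cancel₀ hQ h).symm
        have e3 : (lam j' = c) ↔ (lam j = Q / c) := by
          rw [hjj']
          constructor
          · rintro rfl
            rw [div_div_cancel₀ hQ]
          · intro h
            rw [h, div_div_cancel₀ hQ]
        simp only [e2, e3] at e1
        omega
      have hmem2 := ih l₂.length (by omega) l₂ rfl
        (fun i hi i' hi' => hgen i (hsub i hi) i' (hsub i' hi')) (fun i hi => hself i (hsub i hi)) hbal2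
      have hfirst := hgen j List.mem_cons_self j' (List.mem_cons_of_mem _ hj'l) hmul
      rw [List.map_cons, List.prod_cons, (hperm.map e).prod_eq, List.map_cons, List.prod_cons,
        ← mul_assoc]
      exact A.mul_mem hfirst hmem2

theorem pow_eig (F : R →ₐ[K] R) (N : ℕ) {x : R} {c : K} (h : F x = c • x) :
    (F ^ N) x = c ^ N • x := by
  induction N with
  | zero => simp
  | succ n ih =>
    rw [pow_succ', AlgHom.mul_apply, ih, map_smul, h, smul_smul, pow_succ]

/-- polynomials of the restriction of an endomorphism -/
theorem aeval_restrict_apply {M : Type*} [AddCommGroup M] [Module K M] (F : M →ₗ[K] M)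
    (W : Submodule K M) (hW : ∀ w ∈ W, F w ∈ W) (f : K[X]) (w : W) :
    ((aeval (F.restrict hW) f w : W) : M) = aeval F f (w : M) := by
  induction f using Polynomial.induction_on' generalizing w with
  | add f g hf hg => simp only [map_add, LinearMap.add_apply, Submodule.coe_add, hf, hg]
  | monomial n c =>
    simp only [aeval_monomial, Module.algebraMap_end_eq_smul_id, Module.End.mul_apply,
      LinearMap.smul_apply, LinearMap.id_apply, Submodule.coe_smul]
    congr 1
    induction n generalizing w with
    | zero => simp
    | succ n ih => rw [pow_succ, pow_succ, Module.End.mul_apply, Module.End.mul_apply, ih]; rfl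

end field

section main

variable {p : ℕ} [hp : Fact p.Prime] {a : ℕ} {P : ℚ[X]}

/-- no root of `P` has a power which is a power of `p ^ a` -/
theorem pow_ne (hW : IsWeil p (2 * a) P) (ha : 0 < a) {D : ℕ} {m : PadicAlgCl p → ℤ}
    (hm : IsSlope p (2 * a) P D m)
    (hcore : ∀ u : Rts P → ℤ, IsRel P.Gal (barR hW) (mR P m) u → u = 0)
    (hnf : ∀ x : Rts P, barR hW x ≠ x) (x : Rts P) {M : ℕ} (hM : 0 < M) :
    (x : P.SplittingField) ^ M ≠ ((p : P.SplittingField) ^ a) ^ M := by
  classical
  intro h
  have h1 : (∏ y : Rts P, (y : P.SplittingField) ^ (if y = x then (1 : ℤ) else 0)) ^ M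
      = (p : P.SplittingField) ^ ((a * M : ℕ) : ℤ) := by
    rw [Finset.prod_eq_single x]
    · rw [if_pos rfl, zpow_one, h, zpow_natCast, pow_mul]
    · intro y _ hy
      rw [if_neg hy, zpow_zero]
    · intro hx; exact absurd (Finset.mem_univ _) hx
  have h2 := neat_split hW (by omega) hm hcore _ hM h1 x
  rw [if_pos rfl, if_neg (hnf x)] at h2
  norm_num at h2

theorem tate_comm (hW : IsWeil p (2 * a) P) (ha : 0 < a) {D : ℕ} {m : PadicAlgCl p → ℤ}
    (hm : IsSlope p (2 * a) P D m)
    (hcore : ∀ u : Rts P → ℤ, IsRel P.Gal (barR hW) (mR P m) u → u = 0)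
    (hnf : ∀ x : Rts P, barR hW x ≠ x)
    {K R : Type*} [Field K] [CharZero K] [IsAlgClosed K] [CommRing R] [Algebra K R]
    (F : R →ₐ[K] R) (W : Submodule K R) [FiniteDimensional K W] (hFW : ∀ w ∈ W, F w ∈ W)
    (M : ℕ) (hM : 0 < M)
    (hF : ∀ w ∈ W, aeval F.toLinearMap
      ((X ^ M - C (((p : K) ^ a) ^ M)) * P.map (algebraMap ℚ K)) w = 0)
    (N : ℕ) (hN : 0 < N) (hMN : M ∣ N) (i : ℕ) (ω : R) (hω : ω ∈ W ^ i)
    (hg : ω ∈ maxGenEigenspace (F ^ N).toLinearMap (((p : K) ^ a) ^ (N * i))) :
    (F ^ N) ω = ((p : K) ^ a) ^ (N * i) • ω ∧
    ω ∈ Algebra.adjoin K ({η : R | η ∈ W ∧ (F ^ N) η = ((p : K) ^ a) ^ N • η} ∪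
      {η : R | η ∈ W ^ 2 ∧ (F ^ N) η = ((p : K) ^ a) ^ (N * 2) • η}) := by
  classical
  set q : K := (p : K) ^ a with hq
  have hq0 : q ≠ 0 := q_ne_zero K
  set Q : K := (p : K) ^ (2 * a) with hQ
  have hQ0 : Q ≠ 0 := q_ne_zero K
  have hQq : Q = q * q := by rw [hQ, hq, two_mul, pow_add]
  -- the polynomial is separable
  have hnoroot : ∀ z : K, aeval z P = 0 → z ^ M ≠ q ^ M := by
    intro z hz h
    obtain ⟨x, rfl⟩ := emb_surj hW hz
    apply pow_ne hW ha hm hcore hnf x hM
    apply (emb P K).toRingHom.injective
    change emb P K _ = emb P K _
    rw [map_pow, map_pow, map_pow, map_natCast]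
    exact h
  have hcop : IsCoprime (X ^ M - C (q ^ M)) (P.map (algebraMap ℚ K)) := by
    rw [Polynomial.isCoprime_iff_aeval_ne_zero_of_isAlgClosed K K]
    intro z
    by_contra hcon
    push Not at hcon
    obtain ⟨h1, h2⟩ := hcon
    rw [aeval_map_algebraMap] at h2
    apply hnoroot z h2
    simpa [sub_eq_zero] using h1
  have hsep : ((X ^ M - C (q ^ M)) * P.map (algebraMap ℚ K)).Separable := by
    refine Separable.mul ?_ (hW.irr.separable.map) hcop
    refine separable_X_pow_sub_C _ ?_ (pow_ne_zero _ hq0)
    exact_mod_cast hM.ne'
  set F' := F.toLinearMap.restrict hFW with hF'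
  have hF0 : aeval F' ((X ^ M - C (q ^ M)) * P.map (algebraMap ℚ K)) = 0 := by
    ext w
    have h1 := aeval_restrict_apply F.toLinearMap W hFW
      ((X ^ M - C (q ^ M)) * P.map (algebraMap ℚ K)) w
    rw [hF w.1 w.2] at h1
    rw [LinearMap.zero_apply]
    exact h1
  have hss : IsSemisimple F' := isSemisimple_of_squarefree_aeval_eq_zero hsep.squarefree hF0
  have htop := hss.iSup_eigenspace_eq_top
  set J := {w : W // ∃ μ : K, F' w = μ • w ∧ w ≠ 0} with hJ
  let lam : J → K := fun j => j.2.choose
  have hlam' : ∀ j : J, F' j.1 = lam j • j.1 ∧ j.1 ≠ 0 := fun j => j.2.choose_spec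
  let e : J → R := fun j => ((j.1 : W) : R)
  have hlam : ∀ j : J, F (e j) = lam j • e j := by
    intro j
    exact congrArg Subtype.val (hlam' j).1
  have hspan' : Submodule.span K (Set.range (fun j : J => j.1)) = ⊤ := by
    rw [eq_top_iff, ← htop]
    refine iSup_le (fun μ => ?_)
    intro w hw
    by_cases h0 : w = 0
    · rw [h0]; exact Submodule.zero_mem _
    · apply Submodule.subset_span
      exact ⟨⟨w, μ, mem_eigenspace_iff.mp hw, h0⟩, rfl⟩
  have hspan : Submodule.span K (Set.range e) = W := by
    have h1 : Set.range e = W.subtype '' (Set.range (fun j : J => j.1)) := by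
      rw [← Set.range_comp]
      rfl
    rw [h1, ← Submodule.map_span, hspan', Submodule.map_top, Submodule.range_subtype]
  have hroot : ∀ j : J, lam j ^ M = q ^ M ∨ aeval (lam j) P = 0 := by
    intro j
    have h1 : Module.End.HasEigenvector F' (lam j) j.1 :=
      ⟨mem_eigenspace_iff.mpr (hlam' j).1, (hlam' j).2⟩
    have h2 := aeval_apply_of_hasEigenvector
      (p := (X ^ M - C (q ^ M)) * P.map (algebraMap ℚ K)) h1
    rw [hF0, LinearMap.zero_apply] at h2
    have h3 := (smul_eq_zero.mp h2.symm).resolve_right (hlam' j).2
    rw [eval_mul] at h3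
    rcases mul_eq_zero.mp h3 with h4 | h4
    · left
      simpa [sub_eq_zero] using h4
    · right
      rwa [eval_map, ← aeval_def] at h4
  have hne : ∀ j, lam j ≠ 0 := by
    intro j
    rcases hroot j with h | h
    · intro h0
      rw [h0, zero_pow hM.ne'] at h
      exact pow_ne_zero M hq0 h.symm
    · exact root_ne_zero hW h
  -- lists
  set T : End K R := (F ^ N).toLinearMap with hT
  set S : Set R := Set.range e with hS
  have hTe : ∀ j, (F ^ N) (e j) = lam j ^ N • e j := fun j => pow_eig F N (hlam j)
  have hω' : ω ∈ Submodule.span K (S ^ i) := by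
    rw [← Submodule.span_pow, hspan]
    exact hω
  have hlist : ∀ s ∈ S ^ i, ∃ l : List J, l.length = i ∧ s = (l.map e).prod := by
    intro s hs
    rw [Set.mem_pow] at hs
    obtain ⟨f, rfl⟩ := hs
    choose g hg' using fun t => (f t).2
    refine ⟨List.ofFn g, List.length_ofFn, ?_⟩
    rw [List.map_ofFn]
    congr 2
    funext t
    exact (hg' t).symm
  have hTprod : ∀ l : List J, T (l.map e).prod
      = (l.map (fun j => lam j ^ N)).prod • (l.map e).prod := by
    intro l
    rw [hT]
    change (F ^ N) _ = _
    induction l with
    | nil => simp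
    | cons j l ih =>
      simp only [List.map_cons, List.prod_cons, map_mul, ih, hTe]
      rw [smul_mul_smul_comm]
  have hS' : ∀ s ∈ S ^ i, ∃ ν : K, T s = ν • s := by
    intro s hs
    obtain ⟨l, -, rfl⟩ := hlist s hs
    exact ⟨_, hTprod l⟩
  have hmem := mem_span_eigen T (S ^ i) hS' _ hω' hg
  constructor
  · have : Submodule.span K {s ∈ S ^ i | T s = q ^ (N * i) • s} ≤ T.eigenspace (q ^ (N * i)) := by
      rw [Submodule.span_le]
      intro s hs
      exact mem_eigenspace_iff.mpr hs.2
    exact mem_eigenspace_iff.mp (this hmem)
  · set A := Algebra.adjoin K ({η : R | η ∈ W ∧ (F ^ N) η = q ^ N • η} ∪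
      {η : R | η ∈ W ^ 2 ∧ (F ^ N) η = q ^ (N * 2) • η}) with hAdef
    have heW : ∀ j, e j ∈ W := fun j => (j.1 : W).2
    have : Submodule.span K {s ∈ S ^ i | T s = q ^ (N * i) • s} ≤ Subalgebra.toSubmodule A := by
      rw [Submodule.span_le]
      rintro s ⟨hs, hs2⟩
      obtain ⟨l, hl, rfl⟩ := hlist s hs
      by_cases h0 : (l.map e).prod = 0
      · rw [h0]; exact Submodule.zero_mem _
      have hprod : (l.map (fun j => lam j ^ N)).prod = q ^ (N * i) := by
        rw [hTprod] at hs2
        have h3 : ((l.map (fun j => lam j ^ N)).prod - q ^ (N * i)) • (l.map e).prod = 0 := by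
          rw [sub_smul, hs2, sub_self]
        exact sub_eq_zero.mp ((smul_eq_zero.mp h3).resolve_right h0)
      -- split the list
      set l1 := l.filter (fun j => decide (aeval (lam j) P = 0)) with hl1
      set l2 := l.filter (fun j => ! decide (aeval (lam j) P = 0)) with hl2
      have hperm : (l1 ++ l2).Perm l := List.filter_append_perm _ l
      have hl1r : ∀ j ∈ l1, aeval (lam j) P = 0 := by
        intro j hj
        rw [hl1, List.mem_filter] at hj
        simpa using hj.2
      have hl2r : ∀ j ∈ l2, lam j ^ N = q ^ N := by
        intro j hj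
        rw [hl2, List.mem_filter] at hj
        have h1 : ¬ aeval (lam j) P = 0 := by simpa using hj.2
        have h2 := (hroot j).resolve_right h1
        obtain ⟨c, hc⟩ := hMN
        rw [hc, pow_mul, h2, ← pow_mul]
      have hlen : l1.length + l2.length = i := by
        rw [← List.length_append, hperm.length_eq, hl]
      have hprod2 : ∀ l' : List J, (∀ j ∈ l', lam j ^ N = q ^ N) →
          (l'.map (fun j => lam j ^ N)).prod = q ^ (N * l'.length) := by
        intro l' hl'
        induction l' with
        | nil => simp
        | cons j l' ih =>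
          rw [List.map_cons, List.prod_cons, hl' j List.mem_cons_self,
            ih (fun i hi => hl' i (List.mem_cons_of_mem _ hi)), List.length_cons, ← pow_add]
          congr 1
          ring
      have hprod1 : (l1.map (fun j => lam j ^ N)).prod = q ^ (N * l1.length) := by
        have h1 := (hperm.map (fun j => lam j ^ N)).prod_eq
        rw [List.map_append, List.prod_append, hprod, hprod2 l2 hl2r, ← hlen, mul_add, pow_add] at h1
        exact mul_right_cancel₀ (pow_ne_zero _ hq0) h1
      rw [← (hperm.map e).prod_eq, List.map_append, List.prod_append]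
      refine A.mul_mem ?_ ?_
      · refine prod_mem_comm A e lam Q hQ0 hne _ l1 rfl ?_ ?_ ?_
        · intro j _ j' _ hjj'
          apply Algebra.subset_adjoin
          right
          refine ⟨?_, ?_⟩
          · rw [pow_two]
            exact Submodule.mul_mem_mul (heW j) (heW j')
          · rw [map_mul, hTe, hTe, smul_mul_smul_comm, ← mul_pow, hjj', hQq, ← pow_two, ← pow_mul]
            congr 2
            ring
        · intro j hj hjj
          obtain ⟨x, hx⟩ := emb_surj hW (hl1r j hj)
          apply hnf x
          apply emb_inj (K := K)
          rw [emb_bar hW, hx, div_eq_iff (hne j), hjj]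
        · intro c hc
          have hprod1' : (l1.map (fun j => lam j ^ N)).prod = (p : K) ^ (a * (N * l1.length)) := by
            rw [hprod1, hq, ← pow_mul]
          -- restrict to indices with root eigenvalues
          obtain ⟨x0, hx0⟩ : ∃ x0 : Rts P, True := by
            have h1 := hW.irr.natDegree_pos
            rw [← card_rts hW] at h1
            obtain ⟨x0⟩ := Fintype.card_pos_iff.mp h1
            exact ⟨x0, trivial⟩
          have hcount : (∏ x : Rts P, (emb P K x) ^ (l1.countP (fun j => decide (lam j = emb P K x))))
              = (l1.map lam).prod := by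
            have hall : ∀ l' : List J, (∀ j ∈ l', aeval (lam j) P = 0) →
                ∏ x : Rts P, (emb P K x) ^ (l'.countP (fun j => decide (lam j = emb P K x)))
                  = (l'.map lam).prod := by
              intro l' hl'
              induction l' with
              | nil => simp
              | cons j l' ih =>
                simp only [List.countP_cons, pow_add, Finset.prod_mul_distrib,
                  ih (fun i hi => hl' i (List.mem_cons_of_mem _ hi)), List.map_cons,
                  List.prod_cons]
                rw [mul_comm]
                congr 1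
                obtain ⟨x1, hx1⟩ := emb_surj hW (hl' j List.mem_cons_self)
                rw [Finset.prod_eq_single x1]
                · simp [hx1]
                · intro y _ hy
                  have : ¬ lam j = emb P K y := by
                    intro h
                    apply hy
                    exact emb_inj (h.symm.trans hx1.symm)
                  simp [this]
                · intro h; exact absurd (Finset.mem_univ _) h
            exact hall l1 hl1r
          have h1 : (∏ x : Rts P, (x : P.SplittingField) ^
              ((l1.countP (fun j => decide (lam j = emb P K x)) : ℕ) : ℤ)) ^ N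
              = (p : P.SplittingField) ^ (((a * (N * l1.length) : ℕ) : ℤ)) := by
            apply (emb P K).toRingHom.injective
            change emb P K _ = emb P K _
            simp only [zpow_natCast]
            rw [map_pow, map_prod, map_pow, map_natCast]
            simp only [map_pow]
            rw [hcount, ← hprod1']
            have h2 : ∀ l : List J, (l.map lam).prod ^ N = (l.map (fun j => lam j ^ N)).prod := by
              intro l
              induction l with
              | nil => simp
              | cons j l ih => simp only [List.map_cons, List.prod_cons, mul_pow, ih]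
            rw [h2]
          by_cases hcr : aeval c P = 0
          · obtain ⟨x, hx⟩ := emb_surj hW hcr
            have h2 := neat_split hW (by omega) hm hcore _ hN h1 x
            rw [emb_bar hW, hx, ← hQ] at h2
            exact Nat.cast_injective (R := ℤ) h2
          · have hcr' : ¬ aeval (Q / c) P = 0 := by
              intro h3
              apply hcr
              have h4 := bar_root hW h3
              rwa [← hQ, div_div_cancel₀ hQ0] at h4
            have e1 : l1.countP (fun j => decide (lam j = c)) = 0 := by
              rw [List.countP_eq_zero]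
              intro j hj
              simp only [decide_eq_true_eq]
              rintro rfl
              exact hcr (hl1r j hj)
            have e2 : l1.countP (fun j => decide (lam j = Q / c)) = 0 := by
              rw [List.countP_eq_zero]
              intro j hj
              simp only [decide_eq_true_eq]
              intro h5
              exact hcr' (h5 ▸ hl1r j hj)
            rw [e1, e2]
      · have : ∀ l' : List J, (∀ j ∈ l', lam j ^ N = q ^ N) → (l'.map e).prod ∈ A := by
          intro l' hl'
          induction l' with
          | nil => simp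
          | cons j l' ih =>
            rw [List.map_cons, List.prod_cons]
            refine A.mul_mem ?_ (ih (fun i hi => hl' i (List.mem_cons_of_mem _ hi)))
            apply Algebra.subset_adjoin
            left
            exact ⟨heW j, by rw [hTe, hl' j List.mem_cons_self]⟩
        exact this l2 hl2r
    exact this hmem

end main

end Pool.Agent.Lib.MP81632f
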