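import Pool.Agent.Lib.MP_81632f_ag.K3Sys

/-! The case in which `m` has no zeros, using the stabiliser of `m`. -/

namespace Pool.Agent.Lib.MP81632f

open MulAction

set_option linter.unusedSectionVars false

/-- The stabiliser of `m` is transitive on the points with `m = 1`. -/
def StabTransitive (G : Type*) {R : Type*} [Group G] [MulAction G R] (m : R → ℤ) : Prop :=
  ∀ x y : R, m x = 1 → m y = 1 → ∃ d : G, d • x = y ∧ ∀ z, m (d • z) = m z

/-- Different points are separated by the translates of `m`. -/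
def Separated (G : Type*) {R : Type*} [Group G] [MulAction G R] (m : R → ℤ) : Prop :=
  ∀ x y : R, x ≠ y → ∃ σ : G, m (σ • x) ≠ m (σ • y)

section

variable {G R : Type*} [Group G] [Finite G] [MulAction G R] [Fintype R] [DecidableEq R]
  {bar : R → R} {m u : R → ℤ}

theorem exists_pgroup (hD : StabTransitive G m) (l : ℕ) [hl : Fact l.Prime] (k : ℕ)
    (hcard : (plus m).card = l ^ k) :
    ∃ Q : Subgroup G, IsPGroup l Q ∧ (∀ d ∈ Q, ∀ z, m (d • z) = m z) ∧
      ∀ x y, m x = 1 → m y = 1 → ∃ d ∈ Q, d • x = y := by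
  classical
  let D : Subgroup G :=
    { carrier := {d | ∀ z, m (d • z) = m z}
      one_mem' := fun z => by rw [one_smul]
      mul_mem' := by
        intro a b ha hb z
        rw [mul_smul, ha, hb]
      inv_mem' := by
        intro a ha z
        have := ha (a⁻¹ • z)
        rw [smul_inv_smul] at this
        exact this.symm }
  have hDmem : ∀ d : D, ∀ z, m ((d : G) • z) = m z := fun d => d.2
  let A := {x : R // m x = 1}
  let act : MulAction D A :=
    { smul := fun d x => ⟨(d : G) • x.1, by rw [hDmem]; exact x.2⟩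
      one_smul := fun x => Subtype.ext (one_smul G x.1)
      mul_smul := fun a b x => Subtype.ext (mul_smul (a : G) (b : G) x.1) }
  have hsm : ∀ (d : D) (x : A), ((d • x : A) : R) = (d : G) • x.1 := fun d x => rfl
  have htr : ∀ x y : A, ∃ d : D, d • x = y := by
    intro x y
    obtain ⟨d, hd, hd2⟩ := hD x.1 y.1 x.2 y.2
    exact ⟨⟨d, hd2⟩, Subtype.ext hd⟩
  have hA : Fintype.card A = l ^ k := by
    rw [← hcard, Fintype.card_subtype]
    rfl
  obtain ⟨P⟩ : Nonempty (Sylow l D) := inferInstance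
  refine ⟨(P : Subgroup D).map D.subtype, P.isPGroup'.map _, ?_, ?_⟩
  · intro d hd z
    obtain ⟨d', -, rfl⟩ := hd
    exact d'.2 z
  · intro x y hx hy
    have h1 := orbit_dvd l P htr ⟨x, hx⟩ k (hA ▸ dvd_rfl)
    have h2 : orbit (P : Subgroup D) (⟨x, hx⟩ : A) = Set.univ := by
      apply Set.eq_of_subset_of_ncard_le (Set.subset_univ _)
      rw [Nat.card_coe_set_eq] at h1
      rw [Set.ncard_univ, Nat.card_eq_fintype_card, hA]
      apply Nat.le_of_dvd _ h1
      rw [Set.ncard_pos]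
      exact ⟨_, mem_orbit_self _⟩
    have h3 : (⟨y, hy⟩ : A) ∈ orbit (P : Subgroup D) (⟨x, hx⟩ : A) := h2 ▸ Set.mem_univ _
    obtain ⟨d, hd⟩ := h3
    refine ⟨((d : D) : G), ⟨d.1, d.2, rfl⟩, ?_⟩
    exact congrArg Subtype.val hd

theorem plus_half (h : SignedSystem G R bar m) (hall : ∀ x, m x = 1 ∨ m x = -1) :
    IsHalf bar (plus m) := by
  refine ⟨fun x => ?_, fun x hx hbx => ?_⟩
  · rcases hall x with e | e
    · left; rwa [mem_plus]
    · right; rw [mem_plus, h.m_bar, e]; norm_num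
  · rw [mem_plus] at hx hbx
    rw [h.m_bar, hx] at hbx
    norm_num at hbx

theorem full_sum (h : SignedSystem G R bar m) (hall : ∀ x, m x = 1 ∨ m x = -1)
    (hnf : ∀ x, bar x ≠ x)
    (hD : StabTransitive G m) (l : ℕ) [hl : Fact l.Prime] (k : ℕ)
    (hcard : (plus m).card = l ^ k) (hu : IsRel G bar m u) (hu0 : u ≠ 0) (σ : G) :
    (l : ℤ) ∣ ∑ x ∈ plus m, m (σ • x) := by
  classical
  obtain ⟨Q, hQ, -, hQt⟩ := exists_pgroup hD l k hcard
  obtain ⟨P, hP⟩ := hQ.exists_le_sylow
  obtain ⟨w, hw, ⟨x0, hx0⟩, hfix⟩ := exists_fixed h l P hu hu0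
  have hhalf := plus_half h hall
  -- a point of the half system where w does not vanish modulo l
  obtain ⟨x1, hx1, hwx1⟩ : ∃ x1, m x1 = 1 ∧ ¬ (l : ℤ) ∣ w x1 := by
    rcases hall x0 with e | e
    · exact ⟨x0, e, hx0⟩
    · refine ⟨bar x0, by rw [h.m_bar, e]; norm_num, ?_⟩
      rw [hw.1]; simpa using hx0
  set a : ZMod l := ((w x1 : ℤ) : ZMod l) with ha
  have ha0 : a ≠ 0 := by
    rw [ha, Ne, ZMod.intCast_zmod_eq_zero_iff_dvd]; exact hwx1
  have hconst : ∀ x ∈ plus m, ((w x : ℤ) : ZMod l) = a := by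
    intro x hx
    rw [mem_plus] at hx
    obtain ⟨d, hd, rfl⟩ := hQt x1 x hx1 hx
    exact hfix d (hP hd) x1
  have h1 := rel_half h hnf hw hhalf σ
  have h2 : ((∑ x ∈ plus m, w x * m (σ • x) : ℤ) : ZMod l)
      = a * ((∑ x ∈ plus m, m (σ • x) : ℤ) : ZMod l) := by
    push_cast
    rw [Finset.mul_sum]
    exact Finset.sum_congr rfl (fun x hx => by rw [hconst x hx])
  rw [h1] at h2
  simp only [Int.cast_zero] at h2
  have h3 := (mul_eq_zero.mp h2.symm).resolve_left ha0
  rwa [ZMod.intCast_zmod_eq_zero_iff_dvd] at h3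

theorem sum_sign {ι : Type*} [DecidableEq ι] (A : Finset ι) (f : ι → ℤ)
    (hf : ∀ x ∈ A, f x = 1 ∨ f x = -1) :
    ∑ x ∈ A, f x = A.card - 2 * (A.filter (fun x => f x = -1)).card := by
  rw [Finset.card_filter]
  push_cast
  rw [Finset.card_eq_sum_ones, Finset.mul_sum]
  push_cast
  rw [← Finset.sum_sub_distrib]
  refine Finset.sum_congr rfl (fun x hx => ?_)
  rcases hf x hx with e | e <;> rw [e] <;> norm_num

theorem core_full_prime (h : SignedSystem G R bar m) (hall : ∀ x, m x = 1 ∨ m x = -1)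
    (hD : StabTransitive G m) (hsep : Separated G m) (l : ℕ) [hl : Fact l.Prime] (hl2 : l ≠ 2)
    (hcard : (plus m).card = l) (hu : IsRel G bar m u) : u = 0 := by
  classical
  by_contra hu0
  have hne : (plus m).Nonempty := by
    rw [← Finset.card_pos, hcard]; exact hl.out.pos
  have hnf := nofix_of_plus h hne
  have hgt : 1 < (plus m).card := by rw [hcard]; exact hl.out.one_lt
  obtain ⟨x, hx, y, hy, hxy⟩ := Finset.one_lt_card.mp hgt
  obtain ⟨σ, hσ⟩ := hsep x y hxy
  have h1 := full_sum h hall hnf hD l 1 (by rw [hcard, pow_one]) hu hu0 σ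
  rw [sum_sign (plus m) (fun x => m (σ • x)) (fun x _ => hall _), hcard] at h1
  set n := ((plus m).filter (fun x => m (σ • x) = -1)).card with hn
  -- 0 < n < l
  have hn0 : 0 < n := by
    rw [hn, Finset.card_pos]
    rcases hall (σ • x) with e | e
    · rcases hall (σ • y) with e' | e'
      · exact absurd (e.trans e'.symm) hσ
      · exact ⟨y, by rw [Finset.mem_filter]; exact ⟨hy, e'⟩⟩
    · exact ⟨x, by rw [Finset.mem_filter]; exact ⟨hx, e⟩⟩
  have hnl : n < l := by
    rw [hn, ← hcard]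
    apply Finset.card_lt_card
    rw [Finset.filter_ssubset]
    rcases hall (σ • x) with e | e
    · exact ⟨x, hx, by rw [e]; norm_num⟩
    · rcases hall (σ • y) with e' | e'
      · exact ⟨y, hy, by rw [e']; norm_num⟩
      · exact absurd (e.trans e'.symm) hσ
  have h2 : (l : ℤ) ∣ 2 * (n : ℤ) := by
    have := dvd_sub (dvd_refl (l : ℤ)) h1
    simpa using this
  have h3 : l ∣ 2 * n := by exact_mod_cast h2
  have h4 : l ∣ n := by
    refine (Nat.Coprime.dvd_of_dvd_mul_left ?_ h3)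
    rw [Nat.coprime_primes hl.out Nat.prime_two]
    exact hl2
  exact absurd (Nat.le_of_dvd hn0 h4) (by omega)

/-- inner products of translates -/
theorem sum_mul_translate (h : SignedSystem G R bar m) (hall : ∀ x, m x = 1 ∨ m x = -1)
    (hnf : ∀ x, bar x ≠ x) (σ τ : G) :
    ∑ x ∈ plus m, m (σ • x) * m (τ • x) = ∑ x ∈ plus m, m ((σ * τ⁻¹) • x) := by
  have hhalf := plus_half h hall
  have h1 := sum_half h.bar_bar hnf hhalf (fun x => m (σ • x) * m (τ • x)) (fun x => by
    change m (σ • bar x) * m (τ • bar x) = m (σ • x) * m (τ • x)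
    rw [← h.bar_smul, ← h.bar_smul, h.m_bar, h.m_bar]; ring)
  have h2 := sum_half h.bar_bar hnf hhalf (fun x => m ((σ * τ⁻¹) • x) * m x) (fun x => by
    change m ((σ * τ⁻¹) • bar x) * m (bar x) = m ((σ * τ⁻¹) • x) * m x
    rw [← h.bar_smul, h.m_bar, h.m_bar]; ring)
  have h3 : ∑ x, m (σ • x) * m (τ • x) = ∑ x, m ((σ * τ⁻¹) • x) * m x := by
    refine Fintype.sum_equiv (MulAction.toPerm τ) _ _ (fun x => ?_)
    simp only [MulAction.toPerm_apply, mul_smul, inv_smul_smul]
  have h4 : ∑ x ∈ plus m, m ((σ * τ⁻¹) • x) * m x = ∑ x ∈ plus m, m ((σ * τ⁻¹) • x) :=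
    Finset.sum_congr rfl (fun x hx => by rw [mem_plus.mp hx, mul_one])
  rw [← h4]
  rw [h3, h2] at h1
  linarith

theorem core_full_nine (h : SignedSystem G R bar m) (hall : ∀ x, m x = 1 ∨ m x = -1)
    (hD : StabTransitive G m) (hsep : Separated G m)
    (hcard : (plus m).card = 9) (hu : IsRel G bar m u) : u = 0 := by
  classical
  by_contra hu0
  have hl : Fact (Nat.Prime 3) := ⟨Nat.prime_three⟩
  have hne : (plus m).Nonempty := by
    rw [← Finset.card_pos, hcard]; norm_num
  have hnf := nofix_of_plus h hne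
  set A := plus m with hA
  have hsum := full_sum h hall hnf hD 3 2 (by rw [hcard]; norm_num) hu hu0
  rw [← hA] at hsum
  -- sets of three elements
  have key : ∀ x ∈ A, ∀ y ∈ A, x ≠ y → ∀ σ : G, m (σ • x) ≠ m (σ • y) →
      ∃ δ : ℤ, (δ = 1 ∨ δ = -1) ∧ (A.filter (fun z => m (σ • z) = δ)).card = 3 := by
    intro x hx y hy _ σ hσ
    have h1 := hsum σ
    rw [sum_sign A (fun x => m (σ • x)) (fun x _ => hall _), hcard] at h1
    set n := (A.filter (fun x => m (σ • x) = -1)).card with hn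
    set n' := (A.filter (fun x => m (σ • x) = 1)).card with hn'
    have hnn : n + n' = 9 := by
      rw [hn, hn', ← hcard, ← Finset.card_union_of_disjoint]
      · congr 1
        ext z
        simp only [Finset.mem_union, Finset.mem_filter]
        constructor
        · rintro (h | h) <;> exact h.1
        · intro hz
          rcases hall (σ • z) with e | e
          · exact Or.inr ⟨hz, e⟩
          · exact Or.inl ⟨hz, e⟩
      · rw [Finset.disjoint_left]
        intro z hz hz'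
        rw [Finset.mem_filter] at hz hz'
        rw [hz.2] at hz'
        norm_num at hz'
    have hn0 : 0 < n := by
      rw [hn, Finset.card_pos]
      rcases hall (σ • x) with e | e
      · rcases hall (σ • y) with e' | e'
        · exact absurd (e.trans e'.symm) hσ
        · exact ⟨y, by rw [Finset.mem_filter]; exact ⟨hy, e'⟩⟩
      · exact ⟨x, by rw [Finset.mem_filter]; exact ⟨hx, e⟩⟩
    have hn0' : 0 < n' := by
      rw [hn', Finset.card_pos]
      rcases hall (σ • x) with e | e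
      · exact ⟨x, by rw [Finset.mem_filter]; exact ⟨hx, e⟩⟩
      · rcases hall (σ • y) with e' | e'
        · exact ⟨y, by rw [Finset.mem_filter]; exact ⟨hy, e'⟩⟩
        · exact absurd (e.trans e'.symm) hσ
    have h2 : n = 3 ∨ n' = 3 := by
      push_cast at h1
      omega
    rcases h2 with h2 | h2
    · exact ⟨-1, Or.inr rfl, h2⟩
    · exact ⟨1, Or.inl rfl, h2⟩
  -- first set
  obtain ⟨x, hx, y, hy, hxy⟩ := Finset.one_lt_card.mp (by rw [hcard]; norm_num : 1 < A.card)
  obtain ⟨σ, hσ⟩ := hsep x y hxy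
  obtain ⟨δ, hδ, hS⟩ := key x hx y hy hxy σ hσ
  set S := A.filter (fun z => m (σ • z) = δ) with hSdef
  obtain ⟨x1, hx1, y1, hy1, hxy1⟩ := Finset.one_lt_card.mp (by rw [hS]; norm_num : 1 < S.card)
  have hx1A : x1 ∈ A := (Finset.mem_filter.mp hx1).1
  have hy1A : y1 ∈ A := (Finset.mem_filter.mp hy1).1
  obtain ⟨τ, hτ⟩ := hsep x1 y1 hxy1
  obtain ⟨δ', hδ', hS'⟩ := key x1 hx1A y1 hy1A hxy1 τ hτ
  set S' := A.filter (fun z => m (τ • z) = δ') with hS'def
  -- the number of common points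
  have h1 : (3 : ℤ) ∣ ∑ z ∈ A, m (σ • z) * m (τ • z) := by
    have e1 := sum_mul_translate h hall hnf σ τ
    rw [← hA] at e1
    rw [e1]
    exact_mod_cast hsum (σ * τ⁻¹)
  have hval : ∀ (ρ : G) (ε : ℤ), (ε = 1 ∨ ε = -1) → ∀ z, m (ρ • z) = ε ∨
      (m (ρ • z) = -ε ∧ m (ρ • z) ≠ ε) := by
    intro ρ ε hε z
    rcases hε with rfl | rfl <;> rcases hall (ρ • z) with e | e <;> rw [e] <;> norm_num
  have h2 : ∑ z ∈ A, m (σ • z) * m (τ • z)
      = δ * δ' * (4 * ((S ∩ S').card : ℤ) - 3) := by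
    have e1 : ∀ z ∈ A, m (σ • z) * m (τ • z) = δ * δ' *
        (4 * (if (m (σ • z) = δ ∧ m (τ • z) = δ') then (1 : ℤ) else 0)
          - 2 * (if m (σ • z) = δ then (1 : ℤ) else 0)
          - 2 * (if m (τ • z) = δ' then (1 : ℤ) else 0) + 1) := by
      intro z _
      rcases hval σ δ hδ z with a | ⟨a, a'⟩ <;> rcases hval τ δ' hδ' z with b | ⟨b, b'⟩
      · rw [if_pos ⟨a, b⟩, if_pos a, if_pos b, a, b]; ring
      · rw [if_neg (fun c => b' c.2), if_pos a, if_neg b', a, b]; ring
      · rw [if_neg (fun c => a' c.1), if_neg a', if_pos b, a, b]; ring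
      · rw [if_neg (fun c => a' c.1), if_neg a', if_neg b', a, b]; ring
    rw [Finset.sum_congr rfl e1, ← Finset.mul_sum]
    congr 1
    rw [Finset.sum_add_distrib, Finset.sum_sub_distrib, Finset.sum_sub_distrib, ← Finset.mul_sum,
      ← Finset.mul_sum, ← Finset.mul_sum, Finset.sum_boole, Finset.sum_boole, Finset.sum_boole,
      Finset.filter_and, ← hSdef, ← hS'def, hS, hS']
    simp only [Finset.sum_const, nsmul_eq_mul, mul_one, hcard]
    push_cast
    ring
  rw [h2] at h1
  set t := (S ∩ S').card with ht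
  have h3 : 3 ∣ t := by
    have e1 : (3 : ℤ) ∣ 4 * (t : ℤ) - 3 := by
      rcases hδ with rfl | rfl <;> rcases hδ' with rfl | rfl <;> simpa using h1
    omega
  have h4 : t ≤ 3 := by
    rw [ht, ← hS]
    exact Finset.card_le_card Finset.inter_subset_left
  -- exactly one of x1, y1 is in S'
  have h5 : (x1 ∈ S' ∧ y1 ∉ S') ∨ (y1 ∈ S' ∧ x1 ∉ S') := by
    simp only [hS'def, Finset.mem_filter, hx1A, hy1A, true_and]
    rcases hval τ δ' hδ' x1 with a | ⟨a, a'⟩ <;> rcases hval τ δ' hδ' y1 with b | ⟨b, b'⟩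
    · exact absurd (a.trans b.symm) hτ
    · exact Or.inl ⟨a, b'⟩
    · exact Or.inr ⟨b, a'⟩
    · exact absurd (a.trans b.symm) hτ
  have h6 : 0 < t := by
    rw [ht, Finset.card_pos]
    rcases h5 with h | h
    · exact ⟨x1, Finset.mem_inter.mpr ⟨hx1, h.1⟩⟩
    · exact ⟨y1, Finset.mem_inter.mpr ⟨hy1, h.1⟩⟩
  have h7 : t = 3 := by
    obtain ⟨c, hc⟩ := h3
    omega
  have h8 : S ∩ S' = S := by
    apply Finset.eq_of_subset_of_card_le Finset.inter_subset_left
    rw [hS, ← ht, h7]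
  rcases h5 with h | h
  · exact h.2 (Finset.mem_inter.mp (h8.symm ▸ hy1 : y1 ∈ S ∩ S')).2
  · exact h.2 (Finset.mem_inter.mp (h8.symm ▸ hx1 : x1 ∈ S ∩ S')).2

end

end Pool.Agent.Lib.MP81632f
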