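import Pool.Agent.Lib.MP_81632f_ag.Final
import Pool.Agent.Lib.MP_81632f_ag.K3Full

/-! Decomposition groups and separation of roots by slopes. -/

namespace Pool.Agent.Lib.MP81632f

open Polynomial

section decomposition

variable {p : ℕ} [hp : Fact p.Prime] {P : ℚ[X]}

theorem norm_aut (τ : PadicAlgCl p ≃ₐ[ℚ_[p]] PadicAlgCl p) (z : PadicAlgCl p) : ‖τ z‖ = ‖z‖ := by
  rw [← PadicAlgCl.spectralNorm_eq, ← PadicAlgCl.spectralNorm_eq]
  exact (spectralNorm_eq_of_equiv τ z).symm

/-- Roots which are conjugate over the `p`-adic numbers are conjugate by an automorphism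
preserving all absolute values. -/
theorem exists_decomp {x y : Rts P}
    (hxy : minpoly ℚ_[p] (emb P (PadicAlgCl p) x) = minpoly ℚ_[p] (emb P (PadicAlgCl p) y)) :
    ∃ σ : P.Gal, σ • x = y ∧ ∀ z : P.SplittingField,
      ‖emb P (PadicAlgCl p) (σ z)‖ = ‖emb P (PadicAlgCl p) z‖ := by
  have hy : IsAlgebraic ℚ_[p] (emb P (PadicAlgCl p) y) := Algebra.IsAlgebraic.isAlgebraic _
  have hnorm : Normal ℚ_[p] (PadicAlgCl p) := inferInstance
  obtain ⟨τ, hτ⟩ := minpoly.exists_algEquiv_of_root (K := ℚ_[p]) (L := PadicAlgCl p)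
    (x := emb P (PadicAlgCl p) x) (y := emb P (PadicAlgCl p) y) hy
    (by rw [← hxy]; exact minpoly.aeval _ _)
  have hnormal : Normal ℚ P.SplittingField := Normal.of_isSplittingField P
  let alg : Algebra P.SplittingField (PadicAlgCl p) :=
    (emb P (PadicAlgCl p)).toRingHom.toAlgebra
  have tower : IsScalarTower ℚ P.SplittingField (PadicAlgCl p) :=
    IsScalarTower.of_algebraMap_eq (fun x => ((emb P (PadicAlgCl p)).commutes x).symm)
  let τ' : PadicAlgCl p ≃ₐ[ℚ] PadicAlgCl p := τ.restrictScalars ℚ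
  have hc : ∀ z : P.SplittingField, emb P (PadicAlgCl p) (τ'.restrictNormal P.SplittingField z)
      = τ (emb P (PadicAlgCl p) z) := fun z => AlgEquiv.restrictNormal_commutes τ' P.SplittingField z
  refine ⟨τ'.restrictNormal P.SplittingField, ?_, ?_⟩
  · apply emb_inj (K := PadicAlgCl p)
    exact (hc x).trans hτ
  · intro z
    exact (congrArg norm (hc z)).trans (norm_aut τ _)

end decomposition

section integrality

variable {p : ℕ} [hp : Fact p.Prime]

theorem coeff_prod_le (s : Multiset (PadicAlgCl p)) (hs : ∀ r ∈ s, ‖r‖ ≤ 1) (i : ℕ) :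
    ‖((s.map (fun r => X - C r)).prod).coeff i‖ ≤ 1 := by
  induction s using Multiset.induction_on generalizing i with
  | empty =>
    simp only [Multiset.map_zero, Multiset.prod_zero, coeff_one]
    split_ifs <;> simp
  | cons r s ih =>
    rw [Multiset.map_cons, Multiset.prod_cons, sub_mul, coeff_sub, coeff_C_mul]
    have h1 : ‖(X * (s.map (fun r => X - C r)).prod).coeff i‖ ≤ 1 := by
      cases i with
      | zero => simp
      | succ i =>
        rw [coeff_X_mul]
        exact ih (fun r hr => hs r (Multiset.mem_cons_of_mem hr)) i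
    have h2 : ‖r * ((s.map (fun r => X - C r)).prod).coeff i‖ ≤ 1 := by
      rw [norm_mul]
      exact mul_le_one₀ (hs r (Multiset.mem_cons_self _ _)) (norm_nonneg _)
        (ih (fun r hr => hs r (Multiset.mem_cons_of_mem hr)) i)
    rw [sub_eq_add_neg]
    refine (IsUltrametricDist.norm_add_le_max _ _).trans (max_le h1 ?_)
    rw [norm_neg]; exact h2

theorem den_of_norm {c : ℚ} (hc : ‖((c : ℚ) : PadicAlgCl p)‖ ≤ 1) : ¬ p ∣ c.den := by
  rw [← Rat.padicValuation_le_one_iff, ← Padic.norm_rat_le_one_iff_padicValuation_le_one]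
  rw [← PadicAlgCl.norm_extends]
  have : (((c : ℚ_[p]) : ℚ_[p]) : PadicAlgCl p) = ((c : ℚ) : PadicAlgCl p) := by
    change algebraMap ℚ_[p] (PadicAlgCl p) (c : ℚ_[p]) = _
    rw [map_ratCast]
  rw [this]
  exact hc

theorem integral_away {L : Type*} [Field L] [CharZero L] (f : ℚ[X]) (hf : f.Monic)
    (hden : ∀ i, ¬ p ∣ (f.coeff i).den) {α : L} (hα : aeval α f = 0) :
    ∃ s : ℕ, Nat.Coprime s p ∧ IsIntegral ℤ ((s : L) * α) := by
  classical
  set s : ℕ := ∏ i ∈ Finset.range (f.natDegree + 1), (f.coeff i).den with hs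
  refine ⟨s, ?_, ?_⟩
  · rw [hs]
    apply Nat.Coprime.prod_left
    intro i _
    rw [Nat.coprime_comm, hp.out.coprime_iff_not_dvd]
    exact hden i
  · have hlift : scaleRoots f (s : ℚ) ∈ lifts (Int.castRingHom ℚ) := by
      rw [lifts_iff_coeff_lifts]
      intro i
      rw [coeff_scaleRoots]
      rcases lt_trichotomy i f.natDegree with hi | hi | hi
      · -- the denominator divides s
        have h1 : (f.coeff i).den ∣ s := by
          rw [hs]
          exact Finset.dvd_prod_of_mem _ (Finset.mem_range.mpr (by omega))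
        obtain ⟨c, hc⟩ := h1
        obtain ⟨e, he⟩ : ∃ e, f.natDegree - i = e + 1 := ⟨f.natDegree - i - 1, by omega⟩
        refine ⟨(f.coeff i).num * c * (s : ℤ) ^ e, ?_⟩
        rw [he, pow_succ]
        simp only [eq_intCast, Int.cast_mul, Int.cast_pow, Int.cast_natCast]
        have h2 : f.coeff i * (s : ℚ) = (f.coeff i).num * c := by
          rw [hc]
          push_cast
          rw [← mul_assoc, Rat.mul_den_eq_num]
        rw [← h2]; ring
      · rw [hi, Nat.sub_self, pow_zero, mul_one, hf.coeff_natDegree]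
        exact ⟨1, by simp⟩
      · rw [coeff_eq_zero_of_natDegree_lt hi, zero_mul]
        exact ⟨0, by simp⟩
    obtain ⟨g, hg1, -, hg2⟩ := lifts_and_natDegree_eq_and_monic hlift
      ((monic_scaleRoots_iff _).mpr hf)
    refine ⟨g, hg2, ?_⟩
    have h3 := scaleRoots_aeval_eq_zero (r := (s : ℚ)) hα
    rw [map_natCast, ← hg1, aeval_def, eval₂_map] at h3
    rw [← h3]
    congr 1
    exact RingHom.ext_int _ _

theorem integral_glue {L : Type*} [Field L] [CharZero L] {α : L} {s t : ℕ} (hst : Nat.Coprime s t)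
    (h1 : IsIntegral ℤ ((s : L) * α)) (h2 : IsIntegral ℤ ((t : L) * α)) : IsIntegral ℤ α := by
  have hb := Nat.gcd_eq_gcd_ab s t
  rw [hst.gcd_eq_one] at hb
  have h3 : α = ((Nat.gcdA s t : ℤ) : L) * ((s : L) * α) + ((Nat.gcdB s t : ℤ) : L) * ((t : L) * α) := by
    have h4 : (1 : L) = ((s : ℤ) : L) * ((Nat.gcdA s t : ℤ) : L) + ((t : ℤ) : L) * ((Nat.gcdB s t : ℤ) : L) := by
      have := congrArg (fun n : ℤ => (n : L)) hb
      push_cast at this
      push_cast
      exact this
    calc α = 1 * α := (one_mul _).symm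
      _ = _ := by rw [h4]; push_cast; ring
  rw [h3]
  exact IsIntegral.add (IsIntegral.mul (isIntegral_algebraMap (R := ℤ) (A := L) (x := Nat.gcdA s t)) h1)
    (IsIntegral.mul (isIntegral_algebraMap (R := ℤ) (A := L) (x := Nat.gcdB s t)) h2)

end integrality

section separation

variable {p : ℕ} [hp : Fact p.Prime] {a : ℕ} {P : ℚ[X]}

/-- Roots with the same slopes at all places differ by a root of unity. -/
theorem root_of_unity (hW : IsWeil p a P)
    (hint : ∀ z : ℂ, aeval z P = 0 → IsIntegral ℤ z) {x y : Rts P}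
    (hxy : ∀ σ : P.Gal, ‖emb P (PadicAlgCl p) (σ x)‖ = ‖emb P (PadicAlgCl p) (σ y)‖) :
    ∃ N : ℕ, 0 < N ∧ (x : P.SplittingField) ^ N = (y : P.SplittingField) ^ N := by
  have hx0 := rts_ne_zero hW x
  have hy0 := rts_ne_zero hW y
  have hnormal : Normal ℚ P.SplittingField := Normal.of_isSplittingField P
  set L := P.SplittingField with hL
  -- integrality in the splitting field
  have hintL : ∀ w : Rts P, IsIntegral ℤ (w : P.SplittingField) := by
    intro w
    have h1 := hint _ (emb_root (K := ℂ) w)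
    exact (isIntegral_algHom_iff ((emb P ℂ).restrictScalars ℤ) (emb P ℂ).toRingHom.injective).mp h1
  set α : L := (x : L) / y with hα
  have hα0 : α ≠ 0 := div_ne_zero hx0 hy0
  -- the multiple by p ^ a
  have h1 : IsIntegral ℤ (((p ^ a : ℕ) : L) * α) := by
    have h2 : ((p ^ a : ℕ) : L) * α = x * (barR hW y : L) := by
      rw [barR_coe, hα]; push_cast; ring
    rw [h2]
    exact (hintL x).mul (hintL _)
  -- p-adic integrality
  have hαint : IsIntegral ℚ α := Algebra.IsIntegral.isIntegral α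
  set f := minpoly ℚ α with hf
  have hfm : f.Monic := minpoly.monic hαint
  have hroots : ∀ r : PadicAlgCl p, aeval r f = 0 → ‖r‖ ≤ 1 := by
    intro r hr
    -- r is the image of a conjugate
    have hs : (f.map (algebraMap ℚ L)).Splits := hnormal.splits α
    have hr1 : r ∈ f.rootSet (PadicAlgCl p) := mem_rootSet.mpr ⟨hfm.ne_zero, hr⟩
    rw [← hs.image_rootSet (emb P (PadicAlgCl p))] at hr1
    obtain ⟨β, hβ, rfl⟩ := hr1
    have hβ2 := (mem_rootSet.mp hβ).2
    have halg : IsAlgebraic ℚ β := Algebra.IsAlgebraic.isAlgebraic β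
    have hmin : minpoly ℚ β = f := (minpoly.eq_of_irreducible_of_monic (minpoly.irreducible hαint)
      hβ2 hfm).symm
    obtain ⟨σ, hσ⟩ := minpoly.exists_algEquiv_of_root (K := ℚ) (L := L) (x := α) (y := β) halg
      (by rw [hmin]; exact minpoly.aeval _ _)
    have h3 : emb P (PadicAlgCl p) β
        = emb P (PadicAlgCl p) (σ x) / emb P (PadicAlgCl p) (σ y) := by
      rw [← hσ, hα, map_div₀, map_div₀]
    have h8 : ‖emb P (PadicAlgCl p) (σ x)‖ = ‖emb P (PadicAlgCl p) (σ y)‖ := hxy σ
    have h9 : ‖emb P (PadicAlgCl p) (σ y)‖ ≠ 0 := by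
      rw [norm_ne_zero_iff, Ne, map_eq_zero, map_eq_zero]
      exact hy0
    rw [h3, norm_div, h8, div_self h9]
  have hcoef : ∀ i, ‖((f.coeff i : ℚ) : PadicAlgCl p)‖ ≤ 1 := by
    intro i
    have hsp : (f.map (algebraMap ℚ (PadicAlgCl p))).Splits := IsAlgClosed.splits _
    have h4 := hsp.eq_prod_roots_of_monic (hfm.map _)
    have h5 : ((f.coeff i : ℚ) : PadicAlgCl p) = (f.map (algebraMap ℚ (PadicAlgCl p))).coeff i := by
      rw [coeff_map, eq_ratCast]
    rw [h5, h4]
    apply coeff_prod_le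
    intro r hr
    rw [mem_roots ((hfm.map _).ne_zero), IsRoot.def, eval_map, ← aeval_def] at hr
    exact hroots r hr
  obtain ⟨s, hs1, hs2⟩ := integral_away (p := p) (L := L) f hfm (fun i => den_of_norm (hcoef i))
    (minpoly.aeval ℚ α)
  have hint2 : IsIntegral ℤ α := integral_glue (hs1.pow_right a) hs2 h1
  -- complex absolute values
  have habs : ∀ φ : L →+* ℂ, ‖φ α‖ = 1 := by
    intro φ
    have hq : ∀ w : Rts P, ‖φ w‖ ^ 2 = (p : ℝ) ^ a := by
      intro w
      apply hW.weil
      have : aeval (φ.toRatAlgHom (w : L)) P = 0 := by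
        rw [aeval_algHom_apply, rts_root, map_zero]
      exact this
    have h6 : ‖φ α‖ ^ 2 = 1 := by
      rw [hα, map_div₀, norm_div, div_pow, hq, hq, div_self]
      have : (p : ℝ) ≠ 0 := by exact_mod_cast hp.out.ne_zero
      positivity
    have h7 : 0 ≤ ‖φ α‖ := norm_nonneg _
    nlinarith [sq_nonneg (‖φ α‖ - 1)]
  have : NumberField L := NumberField.mk
  obtain ⟨n, hn, hn2⟩ := NumberField.Embeddings.pow_eq_one_of_norm_eq_one L ℂ hint2 habs
  refine ⟨n, hn, ?_⟩
  rw [hα, div_pow, div_eq_one_iff_eq (pow_ne_zero _ hy0)] at hn2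
  exact hn2

end separation

end Pool.Agent.Lib.MP81632f
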