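import Pool.Agent.Lib.MP_81632f_ag.CoreA
import Pool.Agent.Lib.MP_81632f_ag.CoreD

/-! Signed systems with values in `{-1, 0, 1}` and a transitive stabiliser of the sign pattern. -/

namespace Pool.Agent.Lib.MP81632f

open MulAction

set_option linter.unusedSectionVars false

/-- the points where `m` is one -/
def plus {R : Type*} [Fintype R] (m : R → ℤ) : Finset R :=
  Finset.univ.filter (fun x => m x = 1)

theorem mem_plus {R : Type*} [Fintype R] {m : R → ℤ} {x : R} : x ∈ plus m ↔ m x = 1 := by
  simp [plus]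

section

variable {G R : Type*} [Group G] [MulAction G R] [Fintype R] [DecidableEq R]
  {bar : R → R} {m u : R → ℤ}

theorem sum_abs (h : SignedSystem G R bar m) (h3 : ∀ x, m x = -1 ∨ m x = 0 ∨ m x = 1) :
    ∑ x, |m x| = 2 * ((plus m).card : ℤ) := by
  have h1 : ∀ x, |m x| = (if m x = 1 then (1 : ℤ) else 0) + (if m (bar x) = 1 then (1 : ℤ) else 0) := by
    intro x
    rw [h.m_bar]
    rcases h3 x with e | e | e <;> rw [e] <;> norm_num
  have hinv : Function.Involutive bar := h.bar_bar
  have h2 : ∑ x, (if m (bar x) = 1 then (1 : ℤ) else 0) = ∑ x, (if m x = 1 then (1 : ℤ) else 0) :=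
    Fintype.sum_equiv hinv.toPerm _ _ (fun x => rfl)
  rw [Finset.sum_congr rfl (fun x _ => h1 x), Finset.sum_add_distrib, h2, Finset.sum_boole]
  unfold plus
  ring

theorem half_abs (h : SignedSystem G R bar m) (hnf : ∀ x, bar x ≠ x)
    (h3 : ∀ x, m x = -1 ∨ m x = 0 ∨ m x = 1) {T : Finset R} (hT : IsHalf bar T) :
    ∑ x ∈ T, |m x| = ((plus m).card : ℤ) := by
  have h1 := sum_half h.bar_bar hnf hT (fun x => |m x|) (fun x => by
    change |m (bar x)| = |m x|
    rw [h.m_bar, abs_neg])
  rw [sum_abs h h3] at h1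
  omega

theorem half_sum_le (h : SignedSystem G R bar m) (hnf : ∀ x, bar x ≠ x)
    (h3 : ∀ x, m x = -1 ∨ m x = 0 ∨ m x = 1) {T : Finset R} (hT : IsHalf bar T) :
    |∑ x ∈ T, m x| ≤ ((plus m).card : ℤ) := by
  rw [← half_abs h hnf h3 hT]
  exact Finset.abs_sum_le_sum_abs _ _

theorem half_sum_par (h : SignedSystem G R bar m) (hnf : ∀ x, bar x ≠ x)
    (h3 : ∀ x, m x = -1 ∨ m x = 0 ∨ m x = 1) {T : Finset R} (hT : IsHalf bar T) :
    (2 : ℤ) ∣ ∑ x ∈ T, m x - ((plus m).card : ℤ) := by
  rw [← half_abs h hnf h3 hT, ← Finset.sum_sub_distrib]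
  refine Finset.dvd_sum (fun x _ => ?_)
  rcases h3 x with e | e | e <;> rw [e] <;> norm_num

theorem nofix_of_plus (h : SignedSystem G R bar m) (hr : (plus m).Nonempty) (x : R) :
    bar x ≠ x := by
  obtain ⟨z, hz⟩ := hr
  rw [mem_plus] at hz
  exact nofix h (z := z) (by rw [hz]; norm_num) x

/-- prime power number of pairs -/
theorem core_pow [Finite G] (h : SignedSystem G R bar m) (h3 : ∀ x, m x = -1 ∨ m x = 0 ∨ m x = 1)
    (hr : Odd (plus m).card) (l : ℕ) [hl : Fact l.Prime] (k : ℕ)
    (hcard : Fintype.card R = 2 * l ^ k) (hlr : l = 2 ∨ (plus m).card < l)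
    (hu : IsRel G bar m u) : u = 0 := by
  have hne : (plus m).Nonempty := by
    rw [← Finset.card_pos]
    exact hr.pos
  have hnf := nofix_of_plus h hne
  refine core_a h l k hcard (fun T hT => ?_) hu
  have h1 := half_sum_le h hnf h3 hT
  have h2 := half_sum_par h hnf h3 hT
  set s := ∑ x ∈ T, m x with hs
  obtain ⟨c, hc⟩ := hr
  intro hd
  rcases hlr with rfl | hlr
  · rw [hc] at h2
    push_cast at h2 hd
    omega
  · have hs0 : s ≠ 0 := by
      intro h0
      rw [h0, hc] at h2
      push_cast at h2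
      omega
    have h4 := Int.le_of_dvd (abs_pos.mpr hs0) ((dvd_abs _ _).mpr hd)
    have h5 : ((plus m).card : ℤ) < l := by exact_mod_cast hlr
    linarith

/-- only one positive point -/
theorem core_one (h : SignedSystem G R bar m) (h3 : ∀ x, m x = -1 ∨ m x = 0 ∨ m x = 1)
    (hr : (plus m).card = 1) (hu : IsRel G bar m u) : u = 0 := by
  rw [Finset.card_eq_one] at hr
  obtain ⟨z, hz⟩ := hr
  have hz1 : m z = 1 := by rw [← mem_plus, hz]; simp
  refine core_b h 2 Nat.prime_two (z := z) (by rw [hz1]; norm_num) (fun y hy => ?_) hu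
  rcases h3 y with e | e | e
  · right
    have h1 : bar y ∈ plus m := by rw [mem_plus, h.m_bar, e]; norm_num
    rw [hz, Finset.mem_singleton] at h1
    rw [← h1, h.bar_bar]
  · rw [e] at hy; simp at hy
  · left
    have h1 : y ∈ plus m := by rw [mem_plus, e]
    rwa [hz, Finset.mem_singleton] at h1

/-- one pair with `m = 0`, even number of pairs -/
theorem core_last (h : SignedSystem G R bar m) (h3 : ∀ x, m x = -1 ∨ m x = 0 ∨ m x = 1) (g : ℕ)
    (hcard : Fintype.card R = 2 * g) (hg : Even g) (hr : (plus m).card + 1 = g)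
    (hr0 : 0 < (plus m).card) (hu : IsRel G bar m u) : u = 0 := by
  have hne : (plus m).Nonempty := Finset.card_pos.mp hr0
  have hnf := nofix_of_plus h hne
  -- the zero set
  set Z : Finset R := Finset.univ.filter (fun x => m x = 0) with hZ
  have hZc : Z.card = 2 := by
    have h1 : ∑ x, |m x| + (Z.card : ℤ) = Fintype.card R := by
      rw [hZ, Finset.card_filter]
      push_cast
      rw [← Finset.sum_add_distrib]
      rw [Finset.sum_congr rfl (g := fun _ => (1 : ℤ)) (fun x _ => ?_)]
      · simp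
      · rcases h3 x with e | e | e <;> rw [e] <;> norm_num
    rw [sum_abs h h3, hcard] at h1
    push_cast at h1
    omega
  obtain ⟨z, hz⟩ : Z.Nonempty := by rw [← Finset.card_pos]; omega
  have hz0 : m z = 0 := by simpa [hZ] using hz
  have hbz : bar z ∈ Z := by simp [hZ, h.m_bar, hz0]
  have hZeq : Z = {z, bar z} := by
    symm
    apply Finset.eq_of_subset_of_card_le
    · intro y hy
      rw [Finset.mem_insert, Finset.mem_singleton] at hy
      rcases hy with rfl | rfl
      · exact hz
      · exact hbz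
    · rw [hZc, Finset.card_pair (hnf z).symm]
  refine core_c h ?_ (z := z) (by rw [hz0]; exact Even.zero) (fun y hy => ?_) hu
  · obtain ⟨c, hc⟩ := hg
    exact ⟨c, by rw [hcard, hc]; ring⟩
  · have hy0 : m y = 0 := by
      rcases h3 y with e | e | e
      · rw [e] at hy; exact absurd hy (by decide)
      · exact e
      · rw [e] at hy; exact absurd hy (by decide)
    have h1 : y ∈ Z := by simp [hZ, hy0]
    rw [hZeq, Finset.mem_insert, Finset.mem_singleton] at h1
    exact h1

end

end Pool.Agent.Lib.MP81632f
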