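import Pool.Agent.Lib.MP_81632f_ag.CoreA
import Pool.Agent.Lib.MP_81632f_ag.CoreD

/-! Weil numbers: Galois action on the roots and slopes. -/

namespace Pool.Agent.Lib.MP81632f

open Polynomial

/-- `P` is irreducible over the rationals and all its complex roots have absolute value
`sqrt (p ^ a)`. -/
structure IsWeil (p a : ℕ) (P : ℚ[X]) : Prop where
  irr : Irreducible P
  weil : ∀ z : ℂ, aeval z P = 0 → ‖z‖ ^ 2 = (p : ℝ) ^ a

/-- `m` records the slopes: if the root `z` has slope `s` (normalised so that `p ^ a` has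
slope `1`) then `m z = D (2 s - 1)`. -/
def IsSlope (p : ℕ) [Fact p.Prime] (a : ℕ) (P : ℚ[X]) (D : ℕ) (m : PadicAlgCl p → ℤ) : Prop :=
  ∀ z : PadicAlgCl p, aeval z P = 0 →
    ‖z‖ ^ (2 * D) = ‖((p : PadicAlgCl p) ^ a)‖ ^ ((D : ℤ) + m z)

section

variable {p : ℕ} [hp : Fact p.Prime] {a : ℕ} {P : ℚ[X]}

theorem norm_p : ‖(p : PadicAlgCl p)‖ = (p : ℝ)⁻¹ := by
  have h := PadicAlgCl.valuation_p p
  have h2 := PadicAlgCl.valuation_coe p (p : PadicAlgCl p)
  rw [h] at h2
  rw [← h2]
  simp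

theorem norm_q_pos : 0 < ‖((p : PadicAlgCl p) ^ a)‖ := by
  rw [norm_pow, norm_p]
  have : (0 : ℝ) < p := by exact_mod_cast hp.out.pos
  positivity

theorem norm_q_lt (ha : 0 < a) : ‖((p : PadicAlgCl p) ^ a)‖ < 1 := by
  rw [norm_pow, norm_p]
  have : (1 : ℝ) < p := by exact_mod_cast hp.out.one_lt
  exact pow_lt_one₀ (by positivity) (inv_lt_one_of_one_lt₀ this) ha.ne'

theorem zpow_q_inj (ha : 0 < a) {k l : ℤ}
    (h : ‖((p : PadicAlgCl p) ^ a)‖ ^ k = ‖((p : PadicAlgCl p) ^ a)‖ ^ l) : k = l :=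
  zpow_right_injective₀ norm_q_pos (norm_q_lt ha).ne h

/-- embeddings of the splitting field -/
noncomputable def emb (P : ℚ[X]) (K : Type*) [Field K] [CharZero K] [IsAlgClosed K] :
    P.SplittingField →ₐ[ℚ] K := IsAlgClosed.lift

theorem root_ne_zero (hW : IsWeil p a P) {K : Type*} [Field K] [CharZero K] {x : K}
    (hx : aeval x P = 0) : x ≠ 0 := by
  rintro rfl
  have h1 : aeval (0 : ℂ) P = 0 := by
    have e1 : aeval (0 : K) P = algebraMap ℚ K (P.eval 0) := by
      rw [← map_zero (algebraMap ℚ K), aeval_algebraMap_apply, coe_aeval_eq_eval]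
    have e2 : aeval (0 : ℂ) P = algebraMap ℚ ℂ (P.eval 0) := by
      rw [← map_zero (algebraMap ℚ ℂ), aeval_algebraMap_apply, coe_aeval_eq_eval]
    rw [e1] at hx
    have e3 : P.eval 0 = 0 := (algebraMap ℚ K).injective (by rw [hx, map_zero])
    rw [e2, e3, map_zero]
  have h2 := hW.weil 0 h1
  have : (0 : ℝ) < (p : ℝ) ^ a := by
    have : (0 : ℝ) < p := by exact_mod_cast hp.out.pos
    positivity
  rw [norm_zero] at h2
  norm_num at h2
  linarith

theorem bar_root_C (hW : IsWeil p a P) {z : ℂ} (hz : aeval z P = 0) :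
    aeval ((p : ℂ) ^ a / z) P = 0 := by
  have h1 := hW.weil z hz
  have hz0 : z ≠ 0 := root_ne_zero hW hz
  have h2 : (p : ℂ) ^ a / z = (starRingEnd ℂ) z := by
    rw [div_eq_iff hz0, mul_comm, Complex.mul_conj, Complex.normSq_eq_norm_sq, h1]
    push_cast
    rfl
  rw [h2]
  have h3 : aeval ((starRingEnd ℂ) z) P = (starRingEnd ℂ) (aeval z P) := by
    have := (Polynomial.aeval_algHom_apply ((starRingEnd ℂ).toRatAlgHom) z P)
    exact this
  rw [h3, hz, map_zero]

theorem weil_isIntegral (hW : IsWeil p a P) {K : Type*} [Field K] [CharZero K] {x : K}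
    (hx : aeval x P = 0) : IsIntegral ℚ x :=
  ⟨P * C (P.leadingCoeff)⁻¹, monic_mul_leadingCoeff_inv hW.irr.ne_zero, by
    rw [eval₂_mul, ← aeval_def, hx, zero_mul]⟩

theorem bar_root (hW : IsWeil p a P) {K : Type*} [Field K] [CharZero K] {x : K}
    (hx : aeval x P = 0) : aeval ((p : K) ^ a / x) P = 0 := by
  -- transfer through the simple extension: the minimal polynomial of x divides the numerator
  have hx0 := root_ne_zero hW hx
  have hint : IsIntegral ℚ x := weil_isIntegral hW hx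
  have halg : Algebra.IsAlgebraic ℚ (IntermediateField.adjoin ℚ {x}) :=
    IntermediateField.isAlgebraic_adjoin_simple hint
  let f : (IntermediateField.adjoin ℚ {x}) →ₐ[ℚ] ℂ := IsAlgClosed.lift
  let g := IntermediateField.AdjoinSimple.gen ℚ x
  have hg : aeval g P = 0 := by
    apply (algebraMap (IntermediateField.adjoin ℚ {x}) K).injective
    rw [map_zero, ← aeval_algebraMap_apply]
    simpa [g] using hx
  have hfg : aeval (f g) P = 0 := by
    rw [aeval_algHom_apply, hg, map_zero]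
  have h1 := bar_root_C hW hfg
  have h2 : (p : ℂ) ^ a / f g = f ((p : IntermediateField.adjoin ℚ {x}) ^ a / g) := by
    rw [map_div₀, map_pow, map_natCast]
  rw [h2, aeval_algHom_apply] at h1
  have h3 : aeval ((p : IntermediateField.adjoin ℚ {x}) ^ a / g) P = 0 :=
    f.toRingHom.injective (by simpa using h1)
  have h4 := congrArg (algebraMap (IntermediateField.adjoin ℚ {x}) K) h3
  rw [map_zero, ← aeval_algebraMap_apply] at h4
  simpa [g] using h4

end

end Pool.Agent.Lib.MP81632f
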