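import Pool.Agent.Lib.MP_81632f_ag.Neat

/-! The signed system of the roots of a Weil polynomial. -/

namespace Pool.Agent.Lib.MP81632f

open Polynomial

section

variable {p : ℕ} [hp : Fact p.Prime] {a : ℕ} {P : ℚ[X]}

instance isSplitQ (P : ℚ[X]) : IsSplittingField ℚ P.SplittingField P :=
  IsSplittingField.splittingField P

/-- the roots in the splitting field -/
abbrev Rts (P : ℚ[X]) : Type := P.rootSet P.SplittingField

theorem rts_root (x : Rts P) : aeval (x : P.SplittingField) P = 0 :=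
  (mem_rootSet.mp x.2).2

theorem mem_rts (hW : IsWeil p a P) {x : P.SplittingField} (hx : aeval x P = 0) :
    x ∈ P.rootSet P.SplittingField := mem_rootSet.mpr ⟨hW.irr.ne_zero, hx⟩

/-- the involution `x ↦ p ^ a / x` -/
noncomputable def barR (hW : IsWeil p a P) (x : Rts P) : Rts P :=
  ⟨(p : P.SplittingField) ^ a / x, mem_rts hW (bar_root hW (rts_root x))⟩

theorem barR_coe (hW : IsWeil p a P) (x : Rts P) :
    ((barR hW x : Rts P) : P.SplittingField) = (p : P.SplittingField) ^ a / x := rfl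

theorem smul_coe (σ : P.Gal) (x : Rts P) : ((σ • x : Rts P) : P.SplittingField) = σ x := rfl

theorem q_ne_zero (K : Type*) [Field K] [CharZero K] : (p : K) ^ a ≠ 0 :=
  pow_ne_zero _ (by exact_mod_cast hp.out.ne_zero)

theorem rts_ne_zero (hW : IsWeil p a P) (x : Rts P) : (x : P.SplittingField) ≠ 0 :=
  root_ne_zero hW (rts_root x)

/-- the slope function on the roots in the splitting field -/
noncomputable def mR (P : ℚ[X]) (m : PadicAlgCl p → ℤ) (x : Rts P) : ℤ :=
  m (emb P (PadicAlgCl p) x)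

theorem emb_root {K : Type*} [Field K] [CharZero K] [IsAlgClosed K] (x : Rts P) :
    aeval (emb P K x) P = 0 := by
  rw [aeval_algHom_apply, rts_root, map_zero]

theorem slope_bar (hW : IsWeil p a P) (ha : 0 < a) {D : ℕ} {m : PadicAlgCl p → ℤ}
    (hm : IsSlope p a P D m) {z : PadicAlgCl p} (hz : aeval z P = 0) :
    m ((p : PadicAlgCl p) ^ a / z) = - m z := by
  have h1 := hm z hz
  have h2 := hm _ (bar_root hW hz)
  set b := ‖((p : PadicAlgCl p) ^ a)‖ with hb
  have hb0 : b ≠ 0 := norm_q_pos.ne'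
  rw [norm_div, div_pow, h1, ← hb, div_eq_iff (zpow_ne_zero _ hb0), ← zpow_natCast,
    ← zpow_add₀ hb0] at h2
  have h3 := zpow_q_inj ha h2
  push_cast at h3
  linarith

theorem signed (hW : IsWeil p a P) (ha : 0 < a) {D : ℕ} {m : PadicAlgCl p → ℤ}
    (hm : IsSlope p a P D m) : SignedSystem P.Gal (Rts P) (barR hW) (mR P m) where
  bar_bar := by
    intro x
    apply Subtype.ext
    rw [barR_coe, barR_coe, div_div_cancel₀ (q_ne_zero _)]
  bar_smul := by
    intro σ x
    apply Subtype.ext
    rw [barR_coe, smul_coe, smul_coe, barR_coe]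
    have : σ ((p : P.SplittingField) ^ a / x) = σ ((p : P.SplittingField) ^ a) / σ x := map_div₀ σ _ _
    rw [this]
    congr 1
    rw [map_pow, map_natCast]
  trans := by
    intro x y
    have hnormal : Normal ℚ P.SplittingField := Normal.of_isSplittingField P
    have hy : IsAlgebraic ℚ (y : P.SplittingField) := (weil_isIntegral hW (rts_root y)).isAlgebraic
    have hmin : minpoly ℚ (y : P.SplittingField) = P * C P.leadingCoeff⁻¹ :=
      (minpoly.eq_of_irreducible hW.irr (rts_root y)).symm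
    obtain ⟨σ, hσ⟩ := minpoly.exists_algEquiv_of_root (K := ℚ) (L := P.SplittingField)
      (x := (x : P.SplittingField)) (y := y) hy (by rw [hmin, map_mul, rts_root, zero_mul])
    exact ⟨σ, Subtype.ext hσ⟩
  m_bar := by
    intro x
    unfold mR
    rw [barR_coe, map_div₀, map_pow, map_natCast]
    exact slope_bar hW ha hm (emb_root x)

theorem prod_zpow_base {ι : Type*} (s : Finset ι) {b : ℝ} (hb : b ≠ 0) (f : ι → ℤ) :
    ∏ x ∈ s, b ^ f x = b ^ ∑ x ∈ s, f x := by
  classical
  induction s using Finset.induction_on with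
  | empty => simp
  | insert i s hi ih => rw [Finset.prod_insert hi, Finset.sum_insert hi, ih, zpow_add₀ hb]

theorem rel_of_mul (hW : IsWeil p a P) (ha : 0 < a) {D : ℕ} {m : PadicAlgCl p → ℤ}
    (hm : IsSlope p a P D m) (c : Rts P → ℤ) {N : ℕ} (hN : 0 < N) {M : ℤ}
    (h : (∏ x : Rts P, (x : P.SplittingField) ^ c x) ^ N = (p : P.SplittingField) ^ M) (σ : P.Gal) :
    ∑ x, c x * mR P m (σ • x) = 0 := by
  have hp1 : (1 : ℝ) < p := by exact_mod_cast hp.out.one_lt
  have hp0 : (0 : ℝ) < p := by linarith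
  -- complex absolute values
  have e1 : (a : ℤ) * (∑ x, c x) * N = M * 2 := by
    have h1 := congrArg (fun y => ‖emb P ℂ y‖) h
    simp only [map_pow, map_prod, map_zpow₀, map_natCast, norm_pow, norm_prod, norm_zpow,
      Complex.norm_natCast] at h1
    have h2 := congrArg (fun y => y ^ 2) h1
    simp only [← pow_mul] at h2
    rw [mul_comm N 2, pow_mul, ← Finset.prod_pow] at h2
    have h3 : ∀ x : Rts P, (‖emb P ℂ x‖ ^ c x) ^ 2 = (p : ℝ) ^ ((a : ℤ) * c x) := by
      intro x
      rw [← zpow_natCast, ← zpow_mul, mul_comm (c x), zpow_mul, zpow_natCast,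
        hW.weil _ (emb_root x), zpow_mul, zpow_natCast]
    rw [Finset.prod_congr rfl (fun x _ => h3 x), prod_zpow_base _ hp0.ne', ← zpow_natCast,
      ← zpow_natCast, ← zpow_mul, ← zpow_mul, ← Finset.mul_sum] at h2
    have h4 := zpow_right_injective₀ hp0 hp1.ne' h2
    exact_mod_cast h4
  -- p-adic absolute values
  set b := ‖((p : PadicAlgCl p) ^ a)‖ with hb
  have hb0 : b ≠ 0 := norm_q_pos.ne'
  set β := ‖(p : PadicAlgCl p)‖ with hβ
  have hβ0 : 0 < β := by rw [hβ, norm_p]; positivity
  have hβ1 : β ≠ 1 := by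
    rw [hβ, norm_p]
    exact (inv_lt_one_of_one_lt₀ hp1).ne
  have hbβ : b = β ^ (a : ℤ) := by rw [hb, hβ, norm_pow, zpow_natCast]
  have e2 : (a : ℤ) * (∑ x, ((D : ℤ) + mR P m (σ • x)) * c x) * N = M * (2 * D) := by
    have h1 := congrArg (fun y => ‖emb P (PadicAlgCl p) (σ y)‖) h
    simp only [map_pow, map_prod, map_zpow₀, map_natCast, norm_pow, norm_prod, norm_zpow] at h1
    have h2 := congrArg (fun y => y ^ (2 * D)) h1
    simp only [← pow_mul] at h2
    rw [mul_comm N (2 * D), pow_mul, ← Finset.prod_pow] at h2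
    have h3 : ∀ x : Rts P, (‖emb P (PadicAlgCl p) (σ x)‖ ^ c x) ^ (2 * D)
        = β ^ ((a : ℤ) * (((D : ℤ) + mR P m (σ • x)) * c x)) := by
      intro x
      have h4 := hm _ (emb_root (K := PadicAlgCl p) (σ • x))
      rw [smul_coe, ← hb, hbβ] at h4
      rw [← zpow_natCast, ← zpow_mul, mul_comm (c x), zpow_mul, zpow_natCast, h4, ← zpow_mul,
        ← zpow_mul]
      rfl
    rw [Finset.prod_congr rfl (fun x _ => h3 x), prod_zpow_base _ hβ0.ne', ← zpow_natCast,
      ← zpow_natCast, ← zpow_mul, ← zpow_mul, ← Finset.mul_sum] at h2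
    have h4 := zpow_right_injective₀ hβ0 hβ1 h2
    exact_mod_cast h4
  have e3 : ∑ x, ((D : ℤ) + mR P m (σ • x)) * c x
      = D * (∑ x, c x) + ∑ x, c x * mR P m (σ • x) := by
    rw [Finset.mul_sum, ← Finset.sum_add_distrib]
    exact Finset.sum_congr rfl (fun x _ => by ring)
  rw [e3] at e2
  have haN : (a : ℤ) * N ≠ 0 := by positivity
  have e4 : (a : ℤ) * N * ∑ x, c x * mR P m (σ • x) = 0 := by
    have : (a : ℤ) * N * (D * ∑ x, c x) = M * (2 * D) := by
      have h5 := congrArg (fun y => (D : ℤ) * y) e1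
      linear_combination h5
    linarith
  exact (mul_eq_zero.mp e4).resolve_left haN

/-- the antisymmetric part of a multiplicative relation is a relation -/
theorem isRel_of_mul (hW : IsWeil p a P) (ha : 0 < a) {D : ℕ} {m : PadicAlgCl p → ℤ}
    (hm : IsSlope p a P D m) (c : Rts P → ℤ) {N : ℕ} (hN : 0 < N) {M : ℤ}
    (h : (∏ x : Rts P, (x : P.SplittingField) ^ c x) ^ N = (p : P.SplittingField) ^ M) :
    IsRel P.Gal (barR hW) (mR P m) (fun x => c x - c (barR hW x)) := by
  have hs := signed hW ha hm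
  refine ⟨fun x => ?_, fun σ => ?_⟩
  · simp only [hs.bar_bar]; ring
  · have h1 := rel_of_mul hW ha hm c hN h σ
    have h2 : ∑ x, c (barR hW x) * mR P m (σ • x) = - ∑ x, c x * mR P m (σ • x) := by
      rw [← Finset.sum_neg_distrib]
      have hinv : Function.Involutive (barR hW) := hs.bar_bar
      refine Fintype.sum_equiv hinv.toPerm _ _ (fun x => ?_)
      simp only [Function.Involutive.coe_toPerm]
      rw [← hs.bar_smul, hs.m_bar]; ring
    simp only [sub_mul, Finset.sum_sub_distrib]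
    rw [h2, h1]; ring

end

end Pool.Agent.Lib.MP81632f
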